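import Mathlib

set_option autoImplicit false
open Filter Topology

namespace Pool.Agent.CantorAP

/-- `f* = p/(2g)`, `p = 1-2g`. -/
noncomputable def fst (g : ℝ) : ℝ := (1 - 2 * g) / (2 * g)
/-- `f' = (f^2-p)/(2g)`. -/
noncomputable def fpr (g f : ℝ) : ℝ := (f ^ 2 - (1 - 2 * g)) / (2 * g)
/-- `lam = p/f^2`. -/
noncomputable def lam (g f : ℝ) : ℝ := (1 - 2 * g) / f ^ 2

noncomputable def SS (g : ℝ) (R : ℝ → ℝ) (f : ℝ) : ℝ :=
  (1 - lam g f) * R (fpr g f) + lam g f * R (fst g)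

/-- The one-level operator. -/
noncomputable def U (g : ℝ) (b : Bool) (R : ℝ → ℝ) (f : ℝ) : ℝ :=
  if b then (1 - lam g f) * R (fpr g f) / SS g R f else SS g R f

noncomputable def V : List ℝ → List Bool → (ℝ → ℝ) → (ℝ → ℝ)
  | g :: gs, b :: bs, R => U g b (V gs bs R)
  | _, _, R => R

noncomputable def rhoL : List ℝ → ℕ → ℝ → ℝ
  | [], _ => fun _ => 1
  | g :: gs, j => U g j.bodd (rhoL gs (j / 2))

noncomputable def tau (f : ℝ) : ℝ := Real.sqrt (f ^ 2 - 1) / f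
noncomputable def Rr (r : ℝ) (f : ℝ) : ℝ := tau f + (1 - tau f) * r

theorem fst_gt_one {g : ℝ} (h0 : 0 < g) (h1 : g < 1 / 4) : 1 < fst g := by
  unfold fst; rw [lt_div_iff₀ (by linarith)]; linarith

theorem fst_ge_one {g : ℝ} (h0 : 0 < g) (h1 : g ≤ 1 / 4) : 1 ≤ fst g := by
  unfold fst; rw [le_div_iff₀ (by linarith)]; linarith

theorem fpr_gt_one {g f : ℝ} (h0 : 0 < g) (hf : 1 < f) : 1 < fpr g f := by
  unfold fpr; rw [lt_div_iff₀ (by linarith)]; nlinarith

theorem fpr_ge_one {g f : ℝ} (h0 : 0 < g) (hf : 1 ≤ f) : 1 ≤ fpr g f := by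
  unfold fpr; rw [le_div_iff₀ (by linarith)]; nlinarith

theorem lam_pos {g f : ℝ} (h1 : g < 1 / 2) (hf : 1 ≤ f) : 0 < lam g f := by
  unfold lam; exact div_pos (by linarith) (by positivity)

theorem lam_lt_one {g f : ℝ} (h0 : 0 < g) (hf : 1 ≤ f) : lam g f < 1 := by
  unfold lam; rw [div_lt_one (by positivity)]; nlinarith

theorem SS_pos {g f : ℝ} {R : ℝ → ℝ} (h0 : 0 < g) (h1 : g < 1 / 4) (hf : 1 < f)
    (hR : ∀ f > 1, 0 < R f) : 0 < SS g R f := by
  unfold SS
  have a := lam_pos (g := g) (by linarith) hf.le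
  have b := lam_lt_one h0 hf.le
  have c := hR _ (fpr_gt_one h0 hf)
  have d := hR _ (fst_gt_one h0 h1)
  have := mul_pos (sub_pos.2 b) c
  have := mul_pos a d
  linarith

theorem U_pos {g f : ℝ} {b : Bool} {R : ℝ → ℝ} (h0 : 0 < g) (h1 : g < 1 / 4) (hf : 1 < f)
    (hR : ∀ f > 1, 0 < R f) : 0 < U g b R f := by
  unfold U
  have hS := SS_pos h0 h1 hf hR
  split_ifs
  · exact div_pos (mul_pos (sub_pos.2 (lam_lt_one h0 hf.le)) (hR _ (fpr_gt_one h0 hf))) hS
  · exact hS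

theorem V_pos (gs : List ℝ) : ∀ (bs : List Bool), (∀ g ∈ gs, 0 < g ∧ g < 1 / 4) →
    ∀ (R : ℝ → ℝ), (∀ f > 1, 0 < R f) → ∀ f > 1, 0 < V gs bs R f := by
  induction gs with
  | nil => intro bs _ R hR f hf; simpa [V] using hR f hf
  | cons g gs ih =>
    intro bs h R hR f hf
    cases bs with
    | nil => simpa [V] using hR f hf
    | cons b bs =>
      simp only [V]
      have hg := h g (by simp)
      exact U_pos hg.1 hg.2 hf (ih bs (fun x hx => h x (by simp [hx])) R hR)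

theorem U_tendsto {ι : Type*} {l : Filter ι} {g : ℝ} {b : Bool} (h0 : 0 < g) (h1 : g < 1 / 4)
    {Rn : ι → ℝ → ℝ} {R : ℝ → ℝ} (h : ∀ f > 1, Tendsto (fun i => Rn i f) l (𝓝 (R f)))
    (hR : ∀ f > 1, 0 < R f) {f : ℝ} (hf : 1 < f) :
    Tendsto (fun i => U g b (Rn i) f) l (𝓝 (U g b R f)) := by
  have hS : Tendsto (fun i => SS g (Rn i) f) l (𝓝 (SS g R f)) := by
    unfold SS
    exact ((h _ (fpr_gt_one h0 hf)).const_mul _).add ((h _ (fst_gt_one h0 h1)).const_mul _)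
  unfold U
  split_ifs
  · exact ((h _ (fpr_gt_one h0 hf)).const_mul _).div hS (SS_pos h0 h1 hf hR).ne'
  · exact hS

theorem V_tendsto {ι : Type*} {l : Filter ι} (gs : List ℝ) : ∀ (bs : List Bool),
    (∀ g ∈ gs, 0 < g ∧ g < 1 / 4) → ∀ (Rn : ι → ℝ → ℝ) (R : ℝ → ℝ),
    (∀ f > 1, Tendsto (fun i => Rn i f) l (𝓝 (R f))) → (∀ f > 1, 0 < R f) →
    ∀ f > 1, Tendsto (fun i => V gs bs (Rn i) f) l (𝓝 (V gs bs R f)) := by
  induction gs with
  | nil => intro bs _ Rn R h hR f hf; simpa [V] using h f hf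
  | cons g gs ih =>
    intro bs hgs Rn R h hR f hf
    cases bs with
    | nil => simpa [V] using h f hf
    | cons b bs =>
      simp only [V]
      have hg := hgs g (by simp)
      have hgs' : ∀ x ∈ gs, 0 < x ∧ x < 1 / 4 := fun x hx => hgs x (by simp [hx])
      exact U_tendsto hg.1 hg.2 (ih bs hgs' Rn R h hR) (V_pos gs bs hgs' R hR) hf

/-! ### `tau` and `Rr` -/

theorem tau_one : tau 1 = 0 := by simp [tau]

theorem Rr_one (r : ℝ) : Rr r 1 = r := by simp [Rr, tau_one]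

theorem tau_pos {f : ℝ} (hf : 1 < f) : 0 < tau f := by
  unfold tau; exact div_pos (Real.sqrt_pos.2 (by nlinarith)) (by linarith)

theorem tau_nonneg {f : ℝ} (hf : 1 ≤ f) : 0 ≤ tau f := by
  unfold tau; exact div_nonneg (Real.sqrt_nonneg _) (by linarith)

theorem tau_lt_one {f : ℝ} (hf : 1 ≤ f) : tau f < 1 := by
  unfold tau
  rw [div_lt_one (by linarith)]
  rw [Real.sqrt_lt' (by linarith)]
  linarith

theorem Rr_pos {r f : ℝ} (hr : 0 ≤ r) (hf : 1 < f) : 0 < Rr r f := by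
  unfold Rr
  have := tau_pos hf
  have := tau_lt_one hf.le
  nlinarith

theorem tau_tendsto : Tendsto tau atTop (𝓝 1) := by
  have h : Tendsto (fun f : ℝ => Real.sqrt (1 - (f ^ 2)⁻¹)) atTop (𝓝 (Real.sqrt (1 - 0))) := by
    apply (Real.continuous_sqrt.tendsto _).comp
    apply tendsto_const_nhds.sub
    exact tendsto_inv_atTop_zero.comp (tendsto_pow_atTop (by norm_num))
  rw [sub_zero, Real.sqrt_one] at h
  refine h.congr' ?_
  filter_upwards [eventually_ge_atTop 1] with f hf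
  unfold tau
  have : (1 - (f ^ 2)⁻¹) = (f ^ 2 - 1) / f ^ 2 := by
    field_simp
  rw [this, Real.sqrt_div' _ (by positivity), Real.sqrt_sq (by linarith)]

theorem Rr_tendsto (r : ℝ) : Tendsto (Rr r) atTop (𝓝 1) := by
  have := tau_tendsto.add ((tendsto_const_nhds (x := (1 : ℝ)).sub tau_tendsto).mul_const r)
  rw [sub_self, zero_mul, add_zero] at this
  exact this

/-! ### exact separator -/

theorem fpr_quarter (f : ℝ) : fpr (1 / 4) f = 2 * f ^ 2 - 1 := by unfold fpr; ring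
theorem fst_quarter : fst (1 / 4) = 1 := by unfold fst; norm_num
theorem lam_quarter (f : ℝ) : lam (1 / 4) f = 1 / (2 * f ^ 2) := by
  unfold lam
  rw [show (1 - 2 * (1 / 4 : ℝ)) = 1 / 2 by norm_num, div_div]

theorem tau_double {f : ℝ} (hf : 1 ≤ f) : (1 - lam (1 / 4) f) * tau (2 * f ^ 2 - 1) = tau f := by
  rw [lam_quarter]
  unfold tau
  have h1 : (2 * f ^ 2 - 1) ^ 2 - 1 = (2 * f) ^ 2 * (f ^ 2 - 1) := by ring
  rw [h1, Real.sqrt_mul (by positivity), Real.sqrt_sq (by linarith)]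
  have hf0 : f ≠ 0 := by linarith
  have h2 : 2 * f ^ 2 - 1 ≠ 0 := by nlinarith
  field_simp

theorem U_quarter_false (R : ℝ → ℝ) (f : ℝ) :
    U (1 / 4) false R f = (1 - lam (1 / 4) f) * R (2 * f ^ 2 - 1) + lam (1 / 4) f * R 1 := by
  simp only [U, SS, fpr_quarter, fst_quarter]
  simp

/-- iterates of `f ↦ 2f²-1`. -/
noncomputable def it (m : ℕ) (f : ℝ) : ℝ := (fun x : ℝ => 2 * x ^ 2 - 1)^[m] f

theorem it_ge (m : ℕ) : ∀ f : ℝ, 1 ≤ f → 1 + 4 ^ m * (f - 1) ≤ it m f := by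
  induction m with
  | zero => intro f _; simp [it]
  | succ m ih =>
    intro f hf
    have h1 : (1 : ℝ) ≤ 2 * f ^ 2 - 1 := by nlinarith
    have h := ih _ h1
    have h2 : it (m + 1) f = it m (2 * f ^ 2 - 1) := by simp [it]
    rw [h2]
    refine le_trans ?_ h
    have h4 : (0 : ℝ) < 4 ^ m := by positivity
    have : 4 * (f - 1) ≤ 2 * f ^ 2 - 1 - 1 := by nlinarith
    calc 1 + 4 ^ (m + 1) * (f - 1) = 1 + 4 ^ m * (4 * (f - 1)) := by ring
      _ ≤ _ := by gcongr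

theorem it_tendsto {f : ℝ} (hf : 1 < f) : Tendsto (fun m => it m f) atTop atTop := by
  refine tendsto_atTop_mono (fun m => it_ge m f hf.le) ?_
  apply tendsto_atTop_add_const_left
  exact (tendsto_pow_atTop_atTop_of_one_lt (by norm_num : (1 : ℝ) < 4)).atTop_mul_const (by linarith)

theorem sep_iter (R : ℝ → ℝ) (m : ℕ) : ∀ f : ℝ, 1 ≤ f → ∃ c : ℝ, 0 ≤ c ∧ c ≤ 1 ∧
    ((U (1 / 4) false)^[m] R) f = Rr (R 1) f + c * (R (it m f) - Rr (R 1) (it m f)) := by
  induction m with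
  | zero => intro f _; exact ⟨1, by norm_num, le_refl _, by simp [it]⟩
  | succ m ih =>
    intro f hf
    rw [Function.iterate_succ_apply', U_quarter_false]
    have h1 : (1 : ℝ) ≤ 2 * f ^ 2 - 1 := by nlinarith
    obtain ⟨c, hc0, hc1, hc⟩ := ih _ h1
    obtain ⟨c', _, _, hc'⟩ := ih 1 le_rfl
    have hit : it m 1 = 1 := by
      unfold it
      exact Function.iterate_fixed (by norm_num) m
    have hit2 : it (m + 1) f = it m (2 * f ^ 2 - 1) := by simp [it]
    rw [hit, Rr_one, sub_self, mul_zero, add_zero] at hc'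
    rw [hc, hc', hit2]
    have hl := lam_lt_one (g := 1 / 4) (by norm_num) hf
    have hl0 := lam_pos (g := 1 / 4) (by norm_num) hf
    refine ⟨(1 - lam (1 / 4) f) * c, mul_nonneg (by linarith) hc0, by nlinarith, ?_⟩
    have ht := tau_double hf
    unfold Rr
    have : ∀ r t : ℝ, (1 - lam (1 / 4) f) * (tau (2 * f ^ 2 - 1) + (1 - tau (2 * f ^ 2 - 1)) * r + c * t)
        + lam (1 / 4) f * r = tau f + (1 - tau f) * r + (1 - lam (1 / 4) f) * c * t := by
      intro r t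
      rw [← ht]; ring
    exact this _ _

theorem sep_tendsto {R : ℝ → ℝ} (hR : Tendsto R atTop (𝓝 1)) {f : ℝ} (hf : 1 < f) :
    Tendsto (fun m => ((U (1 / 4) false)^[m] R) f) atTop (𝓝 (Rr (R 1) f)) := by
  have h : Tendsto (fun m => R (it m f) - Rr (R 1) (it m f)) atTop (𝓝 0) := by
    have := (hR.comp (it_tendsto hf)).sub ((Rr_tendsto (R 1)).comp (it_tendsto hf))
    simpa using this
  have h2 : Tendsto (fun m => ((U (1 / 4) false)^[m] R) f - Rr (R 1) f) atTop (𝓝 0) := by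
    refine squeeze_zero_norm (fun m => ?_) (tendsto_zero_iff_norm_tendsto_zero.1 h)
    obtain ⟨c, hc0, hc1, hc⟩ := sep_iter R m f hf.le
    rw [hc, add_sub_cancel_left, norm_mul, Real.norm_of_nonneg hc0]
    exact mul_le_of_le_one_left (norm_nonneg _) hc1
  have := h2.add_const (Rr (R 1) f)
  simpa using this

/-! ### joint continuity at the exact separator -/

/-- The filter of pairs `(s, f')` with `s ↑ 1/4`, `f' → f`, `f' ≥ 1`. -/
noncomputable def FF (f : ℝ) : Filter (ℝ × ℝ) := 𝓝[Set.Ioo 0 (1 / 4)] (1 / 4) ×ˢ 𝓝[Set.Ici 1] f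

def CC (Rt : ℝ → ℝ → ℝ) (R : ℝ → ℝ) : Prop :=
  ∀ f, 1 ≤ f → Tendsto (fun z : ℝ × ℝ => Rt z.1 z.2) (FF f) (𝓝 (R f))

theorem FF_fst {f : ℝ} : Tendsto (fun z : ℝ × ℝ => z.1) (FF f) (𝓝 (1 / 4)) :=
  (tendsto_fst).mono_right nhdsWithin_le_nhds

theorem FF_snd {f : ℝ} : Tendsto (fun z : ℝ × ℝ => z.2) (FF f) (𝓝 f) :=
  (tendsto_snd).mono_right nhdsWithin_le_nhds

theorem FF_mem {f : ℝ} : ∀ᶠ z in FF f, 0 < z.1 ∧ z.1 < 1 / 4 ∧ 1 ≤ z.2 := by
  have h1 : ∀ᶠ z in FF f, z.1 ∈ Set.Ioo (0 : ℝ) (1 / 4) := tendsto_fst.eventually self_mem_nhdsWithin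
  have h2 : ∀ᶠ z in FF f, z.2 ∈ Set.Ici (1 : ℝ) := tendsto_snd.eventually self_mem_nhdsWithin
  filter_upwards [h1, h2] with z ha hb
  exact ⟨ha.1, ha.2, hb⟩

theorem tendsto_lam {f : ℝ} (hf : 1 ≤ f) :
    Tendsto (fun z : ℝ × ℝ => lam z.1 z.2) (FF f) (𝓝 (lam (1 / 4) f)) := by
  unfold lam
  exact (tendsto_const_nhds.sub (FF_fst.const_mul 2)).div (FF_snd.pow 2) (by positivity)

theorem tendsto_fpr {f : ℝ} :
    Tendsto (fun z : ℝ × ℝ => (z.1, fpr z.1 z.2)) (FF f) (FF (fpr (1 / 4) f)) := by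
  refine Tendsto.prodMk tendsto_fst ?_
  refine tendsto_nhdsWithin_iff.2 ⟨?_, ?_⟩
  · unfold fpr
    exact ((FF_snd.pow 2).sub (tendsto_const_nhds.sub (FF_fst.const_mul 2))).div (FF_fst.const_mul 2)
      (by norm_num)
  · filter_upwards [FF_mem] with z hz
    exact fpr_ge_one hz.1 hz.2.2

theorem tendsto_fst' {f : ℝ} :
    Tendsto (fun z : ℝ × ℝ => (z.1, fst z.1)) (FF f) (FF (fst (1 / 4))) := by
  refine Tendsto.prodMk tendsto_fst ?_
  refine tendsto_nhdsWithin_iff.2 ⟨?_, ?_⟩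
  · unfold fst
    exact (tendsto_const_nhds.sub (FF_fst.const_mul 2)).div (FF_fst.const_mul 2) (by norm_num)
  · filter_upwards [FF_mem] with z hz
    exact fst_ge_one hz.1 hz.2.1.le

theorem CC_SS {Rt : ℝ → ℝ → ℝ} {R : ℝ → ℝ} (h : CC Rt R) :
    CC (fun s => SS s (Rt s)) (SS (1 / 4) R) := by
  intro f hf
  unfold SS
  have h1 := (h _ (fpr_ge_one (g := 1 / 4) (by norm_num) hf)).comp (tendsto_fpr (f := f))
  have h2 := (h _ (fst_ge_one (g := 1 / 4) (by norm_num) le_rfl)).comp (tendsto_fst' (f := f))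
  exact ((tendsto_const_nhds.sub (tendsto_lam hf)).mul h1).add ((tendsto_lam hf).mul h2)

theorem CC_U {Rt : ℝ → ℝ → ℝ} {R : ℝ → ℝ} (h : CC Rt R) (b : Bool)
    (hb : b = true → ∀ f, 1 ≤ f → SS (1 / 4) R f ≠ 0) :
    CC (fun s => U s b (Rt s)) (U (1 / 4) b R) := by
  cases b with
  | false =>
    have := CC_SS h
    intro f hf
    simpa [U] using this f hf
  | true =>
    intro f hf
    have h1 := (h _ (fpr_ge_one (g := 1 / 4) (by norm_num) hf)).comp (tendsto_fpr (f := f))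
    have h2 := CC_SS h f hf
    have h3 := ((tendsto_const_nhds (x := (1 : ℝ)).sub (tendsto_lam hf)).mul h1).div h2 (hb rfl f hf)
    have e : U (1 / 4) true R f = (1 - lam (1 / 4) f) * R (fpr (1 / 4) f) / SS (1 / 4) R f := by
      simp [U]
    rw [e]
    refine h3.congr fun z => ?_
    simp [U]

theorem CC_const {R : ℝ → ℝ} (h : ContinuousOn R (Set.Ici 1)) : CC (fun _ => R) R := by
  intro f hf
  have := h f hf
  unfold ContinuousWithinAt at this
  exact this.comp tendsto_snd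

theorem CC_iter {Rt : ℝ → ℝ → ℝ} {R : ℝ → ℝ} (h : CC Rt R) (m : ℕ) :
    CC (fun s => (U s false)^[m] (Rt s)) ((U (1 / 4) false)^[m] R) := by
  induction m with
  | zero => simpa using h
  | succ m ih =>
    simp only [Function.iterate_succ_apply']
    exact CC_U ih false (by simp)

theorem CC_pointwise {Rt : ℝ → ℝ → ℝ} {R : ℝ → ℝ} (h : CC Rt R) {f : ℝ} (hf : 1 ≤ f) :
    Tendsto (fun s => Rt s f) (𝓝[Set.Ioo 0 (1 / 4)] (1 / 4)) (𝓝 (R f)) := by
  have h1 : Tendsto (fun s : ℝ => (s, f)) (𝓝[Set.Ioo 0 (1 / 4)] (1 / 4)) (FF f) := by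
    refine Tendsto.prodMk tendsto_id ?_
    exact tendsto_nhdsWithin_iff.2 ⟨tendsto_const_nhds, Eventually.of_forall fun _ => hf⟩
  exact (h f hf).comp h1

/-! ### behaviour at infinity, continuity -/

theorem lam_tendsto (g : ℝ) : Tendsto (lam g) atTop (𝓝 0) := by
  unfold lam
  exact Tendsto.div_atTop tendsto_const_nhds (tendsto_pow_atTop (by norm_num))

theorem fpr_tendsto {g : ℝ} (h0 : 0 < g) : Tendsto (fpr g) atTop atTop := by
  unfold fpr
  apply Tendsto.atTop_div_const (by linarith)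
  apply tendsto_atTop_add_const_right
  exact tendsto_pow_atTop (by norm_num)

theorem U_tendsto_one {g : ℝ} (h0 : 0 < g) (b : Bool) {R : ℝ → ℝ} (hR : Tendsto R atTop (𝓝 1)) :
    Tendsto (U g b R) atTop (𝓝 1) := by
  have h1 : Tendsto (fun f => (1 - lam g f) * R (fpr g f)) atTop (𝓝 1) := by
    have := (tendsto_const_nhds (x := (1 : ℝ)).sub (lam_tendsto g)).mul (hR.comp (fpr_tendsto h0))
    simpa using this
  have h2 : Tendsto (SS g R) atTop (𝓝 1) := by
    have := h1.add ((lam_tendsto g).mul_const (R (fst g)))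
    rw [zero_mul, add_zero] at this
    exact this
  cases b with
  | false => 
    refine h2.congr fun f => ?_
    simp [U]
  | true =>
    have := h1.div h2 one_ne_zero
    rw [div_one] at this
    refine this.congr fun f => ?_
    simp [U]

theorem continuousOn_lam (g : ℝ) : ContinuousOn (lam g) (Set.Ici 1) := by
  unfold lam
  refine continuousOn_const.div (continuousOn_pow 2) fun x hx => ?_
  have : (1 : ℝ) ≤ x := hx
  positivity

theorem continuous_fpr (g : ℝ) : Continuous (fpr g) := by unfold fpr; fun_prop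

theorem mapsTo_fpr {g : ℝ} (h0 : 0 < g) : Set.MapsTo (fpr g) (Set.Ici 1) (Set.Ici 1) :=
  fun _ hx => fpr_ge_one h0 hx

theorem continuousOn_SS {g : ℝ} (h0 : 0 < g) {R : ℝ → ℝ} (hR : ContinuousOn R (Set.Ici 1)) :
    ContinuousOn (SS g R) (Set.Ici 1) := by
  unfold SS
  exact ((continuousOn_const.sub (continuousOn_lam g)).mul
    (hR.comp (continuous_fpr g).continuousOn (mapsTo_fpr h0))).add
    ((continuousOn_lam g).mul continuousOn_const)

theorem continuousOn_U {g : ℝ} (h0 : 0 < g) (b : Bool) {R : ℝ → ℝ}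
    (hR : ContinuousOn R (Set.Ici 1)) (hb : b = true → ∀ f, 1 ≤ f → SS g R f ≠ 0) :
    ContinuousOn (U g b R) (Set.Ici 1) := by
  cases b with
  | false =>
    refine (continuousOn_SS h0 hR).congr fun f _ => ?_
    simp [U]
  | true =>
    have := ((continuousOn_const (c := (1 : ℝ)).sub (continuousOn_lam g)).mul
      (hR.comp (continuous_fpr g).continuousOn (mapsTo_fpr h0))).div (continuousOn_SS h0 hR)
      (fun f hf => hb rfl f hf)
    refine this.congr fun f _ => ?_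
    simp [U]

theorem continuousOn_tau : ContinuousOn tau (Set.Ici 1) := by
  unfold tau
  refine (Continuous.continuousOn (by fun_prop)).div continuousOn_id fun x hx => ?_
  have : (1 : ℝ) ≤ x := hx
  exact (by linarith : x ≠ 0)

theorem continuousOn_Rr (r : ℝ) : ContinuousOn (Rr r) (Set.Ici 1) :=
  continuousOn_tau.add ((continuousOn_const.sub continuousOn_tau).mul continuousOn_const)

end Pool.Agent.CantorAP
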