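import Mathlib
import Pool.Agent.CantorAP.Dynamics

set_option autoImplicit false
open Filter Topology

namespace Pool.Agent.CantorAP

structure Gd (R : ℝ → ℝ) : Prop where
  cont : ContinuousOn R (Set.Ici 1)
  nn : ∀ f, 1 ≤ f → 0 ≤ R f
  pos : ∀ f, 1 < f → 0 < R f
  lim : Tendsto R atTop (𝓝 1)

theorem Gd.SS_pos {g : ℝ} {R : ℝ → ℝ} (h : Gd R) (h0 : 0 < g) (h1 : g ≤ 1 / 4)
    (hp : g < 1 / 4 ∨ 0 < R 1) {f : ℝ} (hf : 1 ≤ f) : 0 < SS g R f := by
  unfold SS
  have a := lam_pos (g := g) (by linarith) hf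
  have b := lam_lt_one h0 hf
  have c := h.nn _ (fpr_ge_one h0 hf)
  have d : 0 < R (fst g) := by
    rcases hp with hp | hp
    · exact h.pos _ (fst_gt_one h0 hp)
    · rcases h1.lt_or_eq with h2 | h2
      · exact h.pos _ (fst_gt_one h0 h2)
      · rw [h2, fst_quarter]; exact hp
  have := mul_nonneg (sub_pos.2 b).le c
  have := mul_pos a d
  linarith

theorem Gd.U {g : ℝ} {R : ℝ → ℝ} (h : Gd R) (h0 : 0 < g) (h1 : g ≤ 1 / 4) (b : Bool)
    (hp : b = true → g < 1 / 4 ∨ 0 < R 1) : Gd (U g b R) := by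
  have hl := fun (f : ℝ) (hf : 1 ≤ f) => lam_lt_one h0 hf
  have hl0 := fun (f : ℝ) (hf : 1 ≤ f) => lam_pos (g := g) (by linarith) hf
  refine ⟨?_, ?_, ?_, U_tendsto_one h0 b h.lim⟩
  · exact continuousOn_U h0 b h.cont fun hb f hf => (h.SS_pos h0 h1 (hp hb) hf).ne'
  · intro f hf
    unfold CantorAP.U
    have e1 : 0 ≤ (1 - lam g f) * R (fpr g f) :=
      mul_nonneg (sub_pos.2 (hl f hf)).le (h.nn _ (fpr_ge_one h0 hf))
    have e2 : 0 ≤ SS g R f := by
      unfold SS
      have := mul_nonneg (hl0 f hf).le (h.nn _ (fst_ge_one h0 h1))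
      linarith
    split_ifs
    · exact div_nonneg e1 e2
    · exact e2
  · intro f hf
    unfold CantorAP.U
    have e1 : 0 < (1 - lam g f) * R (fpr g f) :=
      mul_pos (sub_pos.2 (hl f hf.le)) (h.pos _ (fpr_gt_one h0 hf))
    have e2 : 0 < SS g R f := by
      unfold SS
      have := mul_nonneg (hl0 f hf.le).le (h.nn _ (fst_ge_one h0 h1))
      linarith
    split_ifs
    · exact div_pos e1 e2
    · exact e2

theorem U_one_pos {g : ℝ} {R : ℝ → ℝ} (h : Gd R) (h0 : 0 < g) (h1 : g ≤ 1 / 4) (hR : 0 < R 1)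
    (b : Bool) : 0 < U g b R 1 := by
  have hl := lam_lt_one (g := g) h0 (le_refl (1 : ℝ))
  have hS := h.SS_pos h0 h1 (Or.inr hR) (le_refl (1 : ℝ))
  have hf : fpr g 1 = 1 := by unfold fpr; field_simp; ring
  unfold U
  split_ifs
  · rw [hf]; exact div_pos (mul_pos (sub_pos.2 hl) hR) hS
  · exact hS

theorem Gd_one : Gd (fun _ => (1 : ℝ)) :=
  ⟨continuousOn_const, fun _ _ => zero_le_one, fun _ _ => zero_lt_one, tendsto_const_nhds⟩

theorem Gd_Rr {r : ℝ} (hr : 0 ≤ r) : Gd (Rr r) := by
  refine ⟨continuousOn_Rr r, ?_, fun f hf => Rr_pos hr hf, Rr_tendsto r⟩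
  intro f hf
  unfold Rr
  have := tau_nonneg hf
  have := tau_lt_one hf
  nlinarith

theorem Gd_rhoL (gs : List ℝ) : ∀ (j : ℕ), (∀ g ∈ gs, 0 < g ∧ g < 1 / 4) →
    Gd (rhoL gs j) ∧ 0 < rhoL gs j 1 := by
  induction gs with
  | nil => intro j _; simp only [rhoL]; exact ⟨Gd_one, zero_lt_one⟩
  | cons g gs ih =>
    intro j h
    have hg := h g (by simp)
    obtain ⟨h1, h2⟩ := ih (j / 2) (fun x hx => h x (by simp [hx]))
    simp only [rhoL]
    exact ⟨h1.U hg.1 hg.2.le _ (fun _ => Or.inl hg.2), U_one_pos h1 hg.1 hg.2.le h2 _⟩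

theorem Gd_iter {R : ℝ → ℝ} (h : Gd R) (m : ℕ) : Gd ((U (1 / 4) false)^[m] R) := by
  induction m with
  | zero => simpa using h
  | succ m ih =>
    rw [Function.iterate_succ_apply']
    exact ih.U (by norm_num) le_rfl false (by simp)

/-! ### lists and digits -/

def bits : ℕ → ℕ → List Bool
  | 0, _ => []
  | k + 1, r => r.bodd :: bits k (r / 2)

theorem bits_length (k : ℕ) : ∀ r, (bits k r).length = k := by
  induction k with
  | zero => intro r; rfl
  | succ k ih => intro r; simp [bits, ih]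

theorem exists_bits (bs : List Bool) : ∃ r < 2 ^ bs.length, bits bs.length r = bs := by
  induction bs with
  | nil => exact ⟨0, by simp, rfl⟩
  | cons b bs ih =>
    obtain ⟨r, hr, h⟩ := ih
    refine ⟨2 * r + b.toNat, ?_, ?_⟩
    · rw [List.length_cons, pow_succ]
      have : b.toNat ≤ 1 := Bool.toNat_le b
      omega
    · simp only [List.length_cons, bits]
      have h1 : (2 * r + b.toNat).bodd = b := by
        cases b <;> simp
      have h2 : (2 * r + b.toNat) / 2 = r := by
        have : b.toNat ≤ 1 := Bool.toNat_le b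
        omega
      rw [h1, h2, h]

theorem rhoL_append (gs : List ℝ) : ∀ (hs : List ℝ) (r j : ℕ), r < 2 ^ gs.length →
    rhoL (gs ++ hs) (r + 2 ^ gs.length * j) = V gs (bits gs.length r) (rhoL hs j) := by
  induction gs with
  | nil => intro hs r j hr; simp at hr; subst hr; simp [V]
  | cons g gs ih =>
    intro hs r j hr
    simp only [List.cons_append, List.length_cons, rhoL, bits, V]
    have h1 : (r + 2 ^ (gs.length + 1) * j).bodd = r.bodd := by
      rw [pow_succ]; simp [Nat.bodd_add, Nat.bodd_mul]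
    have h2 : (r + 2 ^ (gs.length + 1) * j) / 2 = r / 2 + 2 ^ gs.length * j := by
      rw [pow_succ, mul_assoc, mul_comm 2 j, ← mul_assoc]
      omega
    rw [h1, h2, ih hs (r / 2) j (by rw [List.length_cons, pow_succ] at hr; omega)]

theorem V_append (gs : List ℝ) : ∀ (bs : List Bool) (hs : List ℝ) (cs : List Bool) (R : ℝ → ℝ),
    bs.length = gs.length → V (gs ++ hs) (bs ++ cs) R = V gs bs (V hs cs R) := by
  induction gs with
  | nil =>
    intro bs hs cs R h
    have : bs = [] := List.length_eq_zero_iff.1 (by simpa using h)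
    subst this; simp [V]
  | cons g gs ih =>
    intro bs hs cs R h
    cases bs with
    | nil => simp at h
    | cons b bs =>
      simp only [List.cons_append, V]
      rw [ih bs hs cs R (by simpa using h)]

theorem V_replicate (m : ℕ) (s : ℝ) (R : ℝ → ℝ) :
    V (List.replicate m s) (List.replicate m false) R = (U s false)^[m] R := by
  induction m with
  | zero => simp [V]
  | succ m ih => rw [List.replicate_succ, List.replicate_succ, V, ih, Function.iterate_succ_apply']

theorem rhoL_replicate (m : ℕ) (s : ℝ) (hs : List ℝ) (a : ℕ) :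
    rhoL (List.replicate m s ++ hs) (2 ^ m * a) = (U s false)^[m] (rhoL hs a) := by
  induction m with
  | zero => simp
  | succ m ih =>
    rw [List.replicate_succ, List.cons_append, rhoL, Function.iterate_succ_apply', ← ih]
    have h1 : (2 ^ (m + 1) * a).bodd = false := by rw [pow_succ]; simp [Nat.bodd_mul]
    have h2 : (2 ^ (m + 1) * a) / 2 = 2 ^ m * a := by
      rw [pow_succ, mul_assoc, mul_comm 2 a, ← mul_assoc]; omega
    rw [h1, h2]

theorem rhoL_replicate' (m : ℕ) (s : ℝ) (hs : List ℝ) (a : ℕ) :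
    rhoL (List.replicate (m + 1) s ++ hs) (2 ^ m * (2 * a + 1)) =
      (U s false)^[m] (U s true (rhoL hs a)) := by
  have : List.replicate (m + 1) s ++ hs = List.replicate m s ++ (s :: hs) := by
    rw [List.replicate_succ', List.append_assoc]; rfl
  rw [this, rhoL_replicate]
  congr 1
  rw [rhoL]
  have h1 : (2 * a + 1).bodd = true := by simp
  have h2 : (2 * a + 1) / 2 = a := by omega
  rw [h1, h2]

theorem U_false_one (g : ℝ) : U g false (fun _ => (1 : ℝ)) = fun _ => 1 := by
  funext f; simp [U, SS]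

theorem U_true_one (g : ℝ) : U g true (fun _ => (1 : ℝ)) = fun f => 1 - lam g f := by
  funext f; simp [U, SS]

theorem rho_q1 (gq d : ℝ) : rhoL [gq, d] 1 = fun f => 1 - lam gq f := by
  simp only [rhoL]
  rw [show (1 / 2 : ℕ).bodd = false by decide, U_false_one, show (1 : ℕ).bodd = true by decide,
    U_true_one]

theorem rho_q2 (gq d : ℝ) : rhoL [gq, d] 2 = U gq false (fun f => 1 - lam d f) := by
  simp only [rhoL]
  rw [show (2 / 2 : ℕ).bodd = true by decide, U_true_one, show (2 : ℕ).bodd = false by decide]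

theorem U_quarter_true_one {R : ℝ → ℝ} (h : 0 < R 1) : U (1 / 4) true R 1 = 1 / 2 := by
  simp only [U, SS, if_true]
  rw [fpr_quarter, fst_quarter, lam_quarter]
  norm_num
  field_simp
  norm_num

end Pool.Agent.CantorAP
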