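import Mathlib
import Pool.Agent.CantorAP.Stage

set_option autoImplicit false
open Filter Topology

namespace Pool.Agent.CantorAP

/-- filter `s ↑ 1/4`. -/
noncomputable abbrev QF : Filter ℝ := 𝓝[Set.Ioo 0 (1 / 4)] (1 / 4)

instance : NeBot QF := by
  rw [QF, nhdsWithin_Ioo_eq_nhdsLT (by norm_num)]
  infer_instance

theorem QF_mem : ∀ᶠ s in QF, 1 / 5 ≤ s ∧ s < 1 / 4 := by
  have h1 : ∀ᶠ s in QF, s ∈ Set.Ioo (0 : ℝ) (1 / 4) := self_mem_nhdsWithin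
  have h2 : ∀ᶠ s in QF, s ∈ Set.Ioi (1 / 5 : ℝ) :=
    mem_nhdsWithin_of_mem_nhds (Ioi_mem_nhds (by norm_num))
  filter_upwards [h1, h2] with s ha hb
  exact ⟨le_of_lt hb, ha.2⟩

theorem V_Rr_tendsto {ι : Type*} {l : Filter ι} {gs : List ℝ} (hgs : ∀ g ∈ gs, 0 < g ∧ g < 1 / 4)
    (bs : List Bool) {F : ℝ} (hF : 1 < F) {v : ι → ℝ} {r : ℝ} (hv : Tendsto v l (𝓝 r)) (hr : 0 ≤ r) :
    Tendsto (fun i => V gs bs (Rr (v i)) F) l (𝓝 (V gs bs (Rr r) F)) := by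
  refine V_tendsto gs bs hgs (fun i => Rr (v i)) (Rr r) (fun f _ => ?_) (fun f hf => Rr_pos hr hf) F hF
  unfold Rr
  exact tendsto_const_nhds.add (hv.const_mul _)

theorem V_sep_tendsto {gs : List ℝ} (hgs : ∀ g ∈ gs, 0 < g ∧ g < 1 / 4)
    (bs : List Bool) {F : ℝ} (hF : 1 < F) {R : ℝ → ℝ} (hR : Gd R) (hR1 : 0 ≤ R 1) :
    Tendsto (fun m => V gs bs ((U (1 / 4) false)^[m] R) F) atTop (𝓝 (V gs bs (Rr (R 1)) F)) :=
  V_tendsto gs bs hgs (fun m => (U (1 / 4) false)^[m] R) (Rr (R 1))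
    (fun _ hf => sep_tendsto hR.lim hf) (fun _ hf => Rr_pos hR1 hf) F hF

theorem V_CC_tendsto {gs : List ℝ} (hgs : ∀ g ∈ gs, 0 < g ∧ g < 1 / 4)
    (bs : List Bool) {F : ℝ} (hF : 1 < F) {Rt : ℝ → ℝ → ℝ} {R : ℝ → ℝ} (h : CC Rt R) (hR : Gd R) :
    Tendsto (fun s => V gs bs (Rt s) F) QF (𝓝 (V gs bs R F)) :=
  V_tendsto gs bs hgs Rt R (fun _ hf => CC_pointwise h hf.le) hR.pos F hF

theorem ev_lt_abs {ι : Type*} {l : Filter ι} {u v : ι → ℝ} {a b c : ℝ} (hu : Tendsto u l (𝓝 a))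
    (hv : Tendsto v l (𝓝 b)) (h : c < |a - b|) : ∀ᶠ i in l, c < |u i - v i| :=
  ((hu.sub hv).abs).eventually (lt_mem_nhds h)

theorem ev_abs_lt {ι : Type*} {l : Filter ι} {u v : ι → ℝ} {a b c : ℝ} (hu : Tendsto u l (𝓝 a))
    (hv : Tendsto v l (𝓝 b)) (h : |a - b| < c) : ∀ᶠ i in l, |u i - v i| < c :=
  ((hu.sub hv).abs).eventually (gt_mem_nhds h)

theorem stage (c : ℝ) (F : ℝ) (hF : 1 < F) (gs : List ℝ) (hgs : ∀ g ∈ gs, 0 < g ∧ g < 1 / 4)
    (bs : List Bool)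
    (hinv : c < |V gs bs (Rr 0) F - V gs bs (Rr (1/2)) F|) (η : ℝ) (hη : 0 < η) (K : ℕ) :
    ∃ (m : ℕ) (s gq d : ℝ), K ≤ m ∧ (1/5 ≤ s ∧ s < 1/4) ∧ (1/5 ≤ gq ∧ gq < 1/4) ∧
      (0 < d ∧ d < 1/4 ∧ 1 / ((m : ℝ) + 1) ≤ d) ∧
      c < |V gs bs ((U s false)^[m+1] (U gq true (U d true (Rr 0)))) F
            - V gs bs ((U s false)^[m+1] (U gq true (U d true (Rr (1/2))))) F| ∧
      c < |V gs bs ((U s false)^[m+1] (rhoL [gq, d] 1)) F
            - V gs bs ((U s false)^[m+1] (rhoL [gq, d] 2)) F| ∧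
      ∀ r < 2 ^ gs.length, |V gs (bits gs.length r) ((U s false)^[m] (U s true (rhoL [gq, d] 1))) F
          - V gs (bits gs.length r) ((U s false)^[m] (U s true (rhoL [gq, d] 2))) F| < η := by
  -- Step A: choose d
  obtain ⟨d, hd0, hd1, hd⟩ : ∃ d : ℝ, 0 < d ∧ d < 1 / 4 ∧
      c < |V gs bs (Rr (2 * d)) F - V gs bs (Rr (1/2)) F| := by
    have h1 : Tendsto (fun d : ℝ => 2 * d) (𝓝[>] 0) (𝓝 0) := by
      have : Tendsto (fun d : ℝ => 2 * d) (𝓝 0) (𝓝 (2 * 0)) := tendsto_id.const_mul 2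
      rw [mul_zero] at this
      exact this.mono_left nhdsWithin_le_nhds
    have h2 := ev_lt_abs (V_Rr_tendsto hgs bs hF h1 le_rfl)
      (tendsto_const_nhds (x := V gs bs (Rr (1/2)) F)) hinv
    have h3 : ∀ᶠ d in 𝓝[>] (0 : ℝ), d ∈ Set.Ioo (0 : ℝ) (1 / 4) := Ioo_mem_nhdsGT (by norm_num)
    obtain ⟨d, ha, hb⟩ := (h2.and h3).exists
    exact ⟨d, hb.1, hb.2, ha⟩
  -- the functions
  have hW : Gd (U d true (Rr (1/2))) := (Gd_Rr (by norm_num)).U hd0 hd1.le true (fun _ => Or.inl hd1)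
  have hW0 : Gd (U d true (Rr 0)) := (Gd_Rr le_rfl).U hd0 hd1.le true (fun _ => Or.inl hd1)
  have hWp : 0 < U d true (Rr (1/2)) 1 :=
    U_one_pos (Gd_Rr (by norm_num)) hd0 hd1.le (by rw [Rr_one]; norm_num) true
  have hf1 : ∀ g : ℝ, 0 < g → fpr g 1 = 1 := fun g hg => by unfold fpr; field_simp; ring
  have hW01 : U d true (Rr 0) 1 = 0 := by
    simp only [U, if_true, hf1 d hd0, Rr_one]; simp
  have hA : Gd (fun f => 1 - lam d f) := by
    rw [← U_true_one]; exact Gd_one.U hd0 hd1.le true (fun _ => Or.inl hd1)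
  -- Step B: choose gq
  obtain ⟨gq, ⟨hq0, hq1⟩, hqa, hqb⟩ : ∃ gq : ℝ, (1/5 ≤ gq ∧ gq < 1/4) ∧
      c < |V gs bs (Rr (rhoL [gq, d] 1 1)) F - V gs bs (Rr (rhoL [gq, d] 2 1)) F| ∧
      c < |V gs bs (Rr 0) F - V gs bs (Rr (U gq true (U d true (Rr (1/2))) 1)) F| := by
    have h1 : Tendsto (fun gq => rhoL [gq, d] 1 1) QF (𝓝 (1/2)) := by
      have h : Tendsto (fun gq : ℝ => 2 * gq) QF (𝓝 (2 * (1/4))) :=
        (tendsto_id.const_mul 2).mono_left nhdsWithin_le_nhds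
      rw [show (2 : ℝ) * (1/4) = 1/2 by norm_num] at h
      refine h.congr fun gq => ?_
      rw [rho_q1]; simp [lam]
    have h2 : Tendsto (fun gq => rhoL [gq, d] 2 1) QF (𝓝 (2 * d)) := by
      have h := CC_pointwise (CC_U (CC_const hA.cont) false (by simp)) (le_refl (1 : ℝ))
      have e : U (1/4) false (fun f => 1 - lam d f) 1 = 2 * d := by
        simp only [U, SS, fpr_quarter, fst_quarter]
        simp [lam]
        norm_num
        ring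
      rw [e] at h
      refine h.congr fun gq => ?_
      rw [rho_q2]
    have h3 : Tendsto (fun gq => U gq true (U d true (Rr (1/2))) 1) QF (𝓝 (1/2)) := by
      have h := CC_pointwise (CC_U (CC_const hW.cont) true
        (fun _ f hf => (hW.SS_pos (by norm_num) le_rfl (Or.inr hWp) hf).ne')) (le_refl (1 : ℝ))
      rw [U_quarter_true_one hWp] at h
      exact h
    have e1 := ev_lt_abs (V_Rr_tendsto hgs bs hF h1 (by norm_num))
      (V_Rr_tendsto hgs bs hF h2 (by positivity)) (by rw [abs_sub_comm]; exact hd)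
    have e2 := ev_lt_abs (tendsto_const_nhds (x := V gs bs (Rr 0) F))
      (V_Rr_tendsto hgs bs hF h3 (by norm_num)) hinv
    obtain ⟨gq, h⟩ := ((QF_mem.and e1).and e2).exists
    exact ⟨gq, h.1.1, h.1.2, h.2⟩
  have hqp : 0 < gq := by linarith
  have hl : ∀ g ∈ [gq, d], 0 < g ∧ g < 1 / 4 := by
    intro g hg
    simp only [List.mem_cons, List.not_mem_nil, or_false] at hg
    rcases hg with rfl | rfl
    · exact ⟨hqp, hq1⟩
    · exact ⟨hd0, hd1⟩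
  obtain ⟨hr1, hr1p⟩ := Gd_rhoL [gq, d] 1 hl
  obtain ⟨hr2, hr2p⟩ := Gd_rhoL [gq, d] 2 hl
  have hX0 : Gd (U gq true (U d true (Rr 0))) := hW0.U hqp hq1.le true (fun _ => Or.inl hq1)
  have hX1 : Gd (U gq true (U d true (Rr (1/2)))) := hW.U hqp hq1.le true (fun _ => Or.inl hq1)
  have hX01 : U gq true (U d true (Rr 0)) 1 = 0 := by
    have : U gq true (U d true (Rr 0)) 1 =
      (1 - lam gq 1) * (U d true (Rr 0)) (fpr gq 1) / SS gq (U d true (Rr 0)) 1 := by simp [U]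
    rw [this, hf1 gq hqp, hW01]; simp
  have hY1 : Gd (U (1/4) true (rhoL [gq, d] 1)) :=
    hr1.U (by norm_num) le_rfl true (fun _ => Or.inr hr1p)
  have hY2 : Gd (U (1/4) true (rhoL [gq, d] 2)) :=
    hr2.U (by norm_num) le_rfl true (fun _ => Or.inr hr2p)
  -- Step C: choose m
  obtain ⟨m, hmK, hmd, hma, hmb, hmc⟩ : ∃ m : ℕ, K ≤ m ∧ 1 / ((m : ℝ) + 1) ≤ d ∧
      c < |V gs bs ((U (1/4) false)^[m+1] (U gq true (U d true (Rr 0)))) F
            - V gs bs ((U (1/4) false)^[m+1] (U gq true (U d true (Rr (1/2))))) F| ∧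
      c < |V gs bs ((U (1/4) false)^[m+1] (rhoL [gq, d] 1)) F
            - V gs bs ((U (1/4) false)^[m+1] (rhoL [gq, d] 2)) F| ∧
      ∀ r < 2 ^ gs.length,
        |V gs (bits gs.length r) ((U (1/4) false)^[m] (U (1/4) true (rhoL [gq, d] 1))) F
          - V gs (bits gs.length r) ((U (1/4) false)^[m] (U (1/4) true (rhoL [gq, d] 2))) F| < η := by
    have e1 : ∀ᶠ m : ℕ in atTop, K ≤ m := eventually_ge_atTop K
    have e2 : ∀ᶠ m : ℕ in atTop, 1 / ((m : ℝ) + 1) < d :=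
      (tendsto_one_div_add_atTop_nhds_zero_nat (𝕜 := ℝ)).eventually (gt_mem_nhds hd0)
    have t1 := (V_sep_tendsto hgs bs hF hX0 hX01.ge).comp (tendsto_add_atTop_nat 1)
    have t2 := (V_sep_tendsto hgs bs hF hX1 (hX1.nn 1 le_rfl)).comp (tendsto_add_atTop_nat 1)
    rw [hX01] at t1
    have e3 := ev_lt_abs t1 t2 hqb
    have e4 := ev_lt_abs ((V_sep_tendsto hgs bs hF hr1 hr1p.le).comp (tendsto_add_atTop_nat 1))
      ((V_sep_tendsto hgs bs hF hr2 hr2p.le).comp (tendsto_add_atTop_nat 1)) hqa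
    have e5 : ∀ᶠ m : ℕ in atTop, ∀ r ∈ Finset.range (2 ^ gs.length),
        |V gs (bits gs.length r) ((U (1/4) false)^[m] (U (1/4) true (rhoL [gq, d] 1))) F
          - V gs (bits gs.length r) ((U (1/4) false)^[m] (U (1/4) true (rhoL [gq, d] 2))) F| < η := by
      rw [Filter.eventually_all_finset]
      intro r _
      have u1 := V_sep_tendsto hgs (bits gs.length r) hF hY1 (hY1.nn 1 le_rfl)
      have u2 := V_sep_tendsto hgs (bits gs.length r) hF hY2 (hY2.nn 1 le_rfl)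
      rw [U_quarter_true_one hr1p] at u1
      rw [U_quarter_true_one hr2p] at u2
      exact ev_abs_lt u1 u2 (by simpa using hη)
    obtain ⟨m, h⟩ := ((((e1.and e2).and e3).and e4).and e5).exists
    refine ⟨m, h.1.1.1.1, h.1.1.1.2.le, h.1.1.2, h.1.2, fun r hr => h.2 r (Finset.mem_range.2 hr)⟩
  -- Step D: choose s
  have hgd : ∀ {R : ℝ → ℝ}, Gd R → ∀ bs' : List Bool, ∀ m : ℕ,
      Tendsto (fun s => V gs bs' ((U s false)^[m] R) F) QF
        (𝓝 (V gs bs' ((U (1/4) false)^[m] R) F)) := fun {R} hR bs' m =>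
    V_CC_tendsto hgs bs' hF (CC_iter (CC_const hR.cont) m) (Gd_iter hR m)
  have hgd' : ∀ {R : ℝ → ℝ}, Gd R → 0 < R 1 → ∀ bs' : List Bool,
      Tendsto (fun s => V gs bs' ((U s false)^[m] (U s true R)) F) QF
        (𝓝 (V gs bs' ((U (1/4) false)^[m] (U (1/4) true R)) F)) := fun {R} hR hR1 bs' =>
    V_CC_tendsto hgs bs' hF (CC_iter (CC_U (CC_const hR.cont) true
      (fun _ f hf => (hR.SS_pos (by norm_num) le_rfl (Or.inr hR1) hf).ne')) m)
      (Gd_iter (hR.U (by norm_num) le_rfl true (fun _ => Or.inr hR1)) m)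
  have e1 := ev_lt_abs (hgd hX0 bs (m+1)) (hgd hX1 bs (m+1)) hma
  have e2 := ev_lt_abs (hgd hr1 bs (m+1)) (hgd hr2 bs (m+1)) hmb
  have e3 : ∀ᶠ s in QF, ∀ r ∈ Finset.range (2 ^ gs.length),
        |V gs (bits gs.length r) ((U s false)^[m] (U s true (rhoL [gq, d] 1))) F
          - V gs (bits gs.length r) ((U s false)^[m] (U s true (rhoL [gq, d] 2))) F| < η := by
    rw [Filter.eventually_all_finset]
    intro r hr
    exact ev_abs_lt (hgd' hr1 hr1p _) (hgd' hr2 hr2p _) (hmc r (Finset.mem_range.1 hr))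
  obtain ⟨s, hs, hsa, hsb, hsc⟩ := (QF_mem.and (e1.and (e2.and e3))).exists
  exact ⟨m, s, gq, d, hmK, hs, ⟨hq0, hq1⟩, ⟨hd0, hd1, hmd⟩, hsa, hsb,
    fun r hr => hsc r (Finset.mem_range.2 hr)⟩

end Pool.Agent.CantorAP
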