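import Mathlib
import Pool.Agent.CantorAP.StageThm

set_option autoImplicit false
open Filter Topology

namespace Pool.Agent.CantorAP

/-- `rho γ j f = P_{j+1}(f) / (f P_j(f))` for the stream `γ`. -/
noncomputable def rho (γ : ℕ → ℝ) (j : ℕ) : ℝ → ℝ := rhoL ((List.range j).map γ) j

def shift (γ : ℕ → ℝ) : ℕ → ℝ := fun k => γ (k + 1)

theorem rhoL_zero (gs : List ℝ) : rhoL gs 0 = fun _ => 1 := by
  induction gs with
  | nil => rfl
  | cons g gs ih =>
    rw [rhoL, Nat.zero_div, ih]
    exact U_false_one g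

theorem rhoL_ext (gs hs : List ℝ) (j : ℕ) (hj : j < 2 ^ gs.length) :
    rhoL (gs ++ hs) j = rhoL gs j := by
  have h1 := rhoL_append gs hs j 0 hj
  have h2 := rhoL_append gs [] j 0 hj
  simp only [mul_zero, add_zero, rhoL_zero, List.append_nil] at h1 h2
  rw [h1, h2]

theorem rho_eq (γ : ℕ → ℝ) (j K : ℕ) (hK : j < 2 ^ K) :
    rho γ j = rhoL ((List.range K).map γ) j := by
  unfold rho
  rcases le_total j K with h | h
  · obtain ⟨e, rfl⟩ := Nat.exists_eq_add_of_le h
    rw [List.range_add, List.map_append, rhoL_ext]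
    rw [List.length_map, List.length_range]; exact Nat.lt_two_pow_self
  · obtain ⟨e, he⟩ := Nat.exists_eq_add_of_le h
    conv_lhs => rw [show List.range j = List.range (K + e) by rw [← he]]
    rw [List.range_add, List.map_append, rhoL_ext]
    rw [List.length_map, List.length_range]; exact hK

theorem rho_zero (γ : ℕ → ℝ) : rho γ 0 = fun _ => 1 := by
  simp [rho, rhoL]

theorem rho_rec (γ : ℕ → ℝ) (j : ℕ) : rho γ j = U (γ 0) j.bodd (rho (shift γ) (j / 2)) := by
  rw [rho_eq γ j (j + 1) (lt_trans Nat.lt_two_pow_self (Nat.pow_lt_pow_right (by norm_num) (by omega))),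
    rho_eq (shift γ) (j / 2) j (lt_of_le_of_lt (Nat.div_le_self _ _) Nat.lt_two_pow_self)]
  rw [List.range_succ_eq_map, List.map_cons, rhoL, List.map_map]
  rfl

/-- states of the construction -/
def IsSt (c F : ℝ) (gs : List ℝ) : Prop :=
  (∀ g ∈ gs, 0 < g ∧ g < 1 / 4) ∧ (∀ i (h : i < gs.length), 1 / ((i : ℝ) + 6) ≤ gs[i]) ∧
    ∃ bs : List Bool, bs.length = gs.length ∧ c < |V gs bs (Rr 0) F - V gs bs (Rr (1/2)) F|

/-- what one step achieves -/
def StepP (c F η : ℝ) (K : ℕ) (gs gs' : List ℝ) : Prop :=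
  ∃ i w D : ℕ, K ≤ i ∧ K ≤ w ∧ i + D < 2 ^ gs'.length ∧ w + 2 ^ gs.length + D ≤ 2 ^ gs'.length ∧
    c < |rhoL gs' i F - rhoL gs' (i + D) F| ∧
    ∀ t < 2 ^ gs.length, |rhoL gs' (w + t) F - rhoL gs' (w + t + D) F| < η

theorem step (c F : ℝ) (hF : 1 < F) (gs : List ℝ) (h : IsSt c F gs) (η : ℝ) (hη : 0 < η) (K : ℕ) :
    ∃ ext : List ℝ, ext ≠ [] ∧ IsSt c F (gs ++ ext) ∧ StepP c F η K gs (gs ++ ext) := by
  obtain ⟨h1, h2, bs, hbs, h3⟩ := h
  obtain ⟨m, s, gq, d, hm, hs, hq, hd, ha, hb, hc⟩ := stage c F hF gs h1 bs h3 η hη K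
  refine ⟨List.replicate (m + 1) s ++ [gq, d], by simp, ⟨?_, ?_, ?_⟩, ?_⟩
  · intro g hg
    simp only [List.mem_append, List.mem_replicate, List.mem_cons, List.not_mem_nil, or_false] at hg
    rcases hg with hg | ⟨_, rfl⟩ | rfl | rfl
    · exact h1 g hg
    · exact ⟨by linarith [hs.1], hs.2⟩
    · exact ⟨by linarith [hq.1], hq.2⟩
    · exact ⟨hd.1, hd.2.1⟩
  · intro i hi
    have h6 : 1 / ((i : ℝ) + 6) ≤ 1 / 5 := by
      apply one_div_le_one_div_of_le (by norm_num)
      have : (0 : ℝ) ≤ i := Nat.cast_nonneg i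
      linarith
    rw [List.getElem_append]
    split_ifs with hlt
    · exact h2 i hlt
    · rw [List.getElem_append]
      split_ifs with hlt2
      · rw [List.getElem_replicate]; linarith [hs.1]
      · simp only [List.length_append, List.length_replicate, List.length_cons,
          List.length_nil, List.length_replicate] at hi hlt2 ⊢
        have : i - gs.length - (m + 1) = 0 ∨ i - gs.length - (m + 1) = 1 := by omega
        rcases this with e | e
        · simp only [e, List.getElem_cons_zero]; linarith [hq.1]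
        · simp only [e, List.getElem_cons_succ, List.getElem_cons_zero]
          refine le_trans ?_ hd.2.2
          apply one_div_le_one_div_of_le (by positivity)
          have : (m : ℝ) + 2 ≤ i := by
            have : m + 2 ≤ i := by omega
            exact_mod_cast this
          linarith
  · refine ⟨bs ++ (List.replicate (m + 1) false ++ [true, true]), by simp [hbs], ?_⟩
    have e : ∀ R : ℝ → ℝ, V (gs ++ (List.replicate (m + 1) s ++ [gq, d]))
        (bs ++ (List.replicate (m + 1) false ++ [true, true])) R =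
        V gs bs ((U s false)^[m+1] (U gq true (U d true R))) := by
      intro R
      rw [V_append _ _ _ _ _ hbs, V_append _ _ _ _ _ (by simp), V_replicate]
      simp only [V]
    rw [e, e]; exact ha
  · obtain ⟨r, hr, hrb⟩ := exists_bits bs
    rw [hbs] at hr hrb
    have hk : 1 ≤ 2 ^ gs.length := Nat.one_le_two_pow
    have hM : m < 2 ^ m := Nat.lt_two_pow_self
    refine ⟨r + 2 ^ gs.length * (2 ^ (m + 1) * 1), 2 ^ gs.length * (2 ^ m * (2 * 1 + 1)),
      2 ^ gs.length * 2 ^ (m + 1), ?_, ?_, ?_, ?_, ?_, ?_⟩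
    · have : 1 * (2 ^ (m + 1)) ≤ 2 ^ gs.length * (2 ^ (m + 1) * 1) := by
        rw [mul_one]; exact Nat.mul_le_mul_right _ hk
      rw [pow_succ] at this ⊢
      omega
    · have : 1 * (2 ^ m * (2 * 1 + 1)) ≤ 2 ^ gs.length * (2 ^ m * (2 * 1 + 1)) :=
        Nat.mul_le_mul_right _ hk
      omega
    · have e : 2 ^ (gs ++ (List.replicate (m + 1) s ++ [gq, d])).length =
          2 ^ gs.length * 2 ^ (m + 1) * 4 := by
        simp only [List.length_append, List.length_replicate, List.length_cons, List.length_nil]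
        ring
      rw [e]
      have : 2 ^ gs.length ≤ 2 ^ gs.length * 2 ^ (m + 1) := Nat.le_mul_of_pos_right _ (by positivity)
      have e2 : 2 ^ gs.length * (2 ^ (m + 1) * 1) = 2 ^ gs.length * 2 ^ (m + 1) := by ring
      rw [e2]
      omega
    · have e : 2 ^ (gs ++ (List.replicate (m + 1) s ++ [gq, d])).length =
          (2 ^ gs.length * 2 ^ m) * 8 := by
        simp only [List.length_append, List.length_replicate, List.length_cons, List.length_nil]
        ring
      rw [e]
      have : 2 ^ gs.length ≤ 2 ^ gs.length * 2 ^ m := Nat.le_mul_of_pos_right _ (by positivity)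
      have e2 : 2 ^ gs.length * (2 ^ m * (2 * 1 + 1)) = (2 ^ gs.length * 2 ^ m) * 3 := by ring
      have e3 : 2 ^ gs.length * 2 ^ (m + 1) = (2 ^ gs.length * 2 ^ m) * 2 := by ring
      rw [e2, e3]
      omega
    · have e3 : r + 2 ^ gs.length * (2 ^ (m + 1) * 1) + 2 ^ gs.length * 2 ^ (m + 1) =
          r + 2 ^ gs.length * (2 ^ (m + 1) * 2) := by ring
      rw [e3, rhoL_append _ _ _ _ hr, rhoL_append _ _ _ _ hr, rhoL_replicate, rhoL_replicate, hrb]
      exact hb
    · intro t ht
      have e1 : 2 ^ gs.length * (2 ^ m * (2 * 1 + 1)) + t =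
          t + 2 ^ gs.length * (2 ^ m * (2 * 1 + 1)) := by ring
      have e3 : t + 2 ^ gs.length * (2 ^ m * (2 * 1 + 1)) + 2 ^ gs.length * 2 ^ (m + 1) =
          t + 2 ^ gs.length * (2 ^ m * (2 * 2 + 1)) := by ring
      rw [e1, e3, rhoL_append _ _ _ _ ht, rhoL_append _ _ _ _ ht, rhoL_replicate', rhoL_replicate']
      exact hc t ht

theorem exists_seq : ∃ G : ℕ → List ℝ, (∀ i, IsSt (1/10) (3/2) (G i)) ∧
    (∀ i, ∃ ext, ext ≠ [] ∧ G (i + 1) = G i ++ ext) ∧
    (∀ i : ℕ, StepP (1/10) (3/2) (1 / ((i : ℝ) + 1)) i (G i) (G (i + 1))) := by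
  have h0 : IsSt (1/10) (3/2) [] := by
    refine ⟨by simp, by simp, [], rfl, ?_⟩
    simp only [V, Rr]
    have : tau (3/2) ≤ 3/4 := by
      unfold tau
      rw [div_le_iff₀ (by norm_num), Real.sqrt_le_left (by norm_num)]
      norm_num
    have h : tau (3/2) + (1 - tau (3/2)) * 0 - (tau (3/2) + (1 - tau (3/2)) * (1/2)) =
      -((1 - tau (3/2)) / 2) := by ring
    rw [h, abs_neg, abs_of_nonneg (by linarith)]
    linarith
  choose! f hf using fun (p : ℕ) (gs : List ℝ) (h : IsSt (1/10) (3/2) gs) =>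
    step (1/10) (3/2) (by norm_num) gs h (1 / ((p : ℝ) + 1)) (by positivity) p
  let G : ℕ → List ℝ := fun n => Nat.rec [] (fun i gs => gs ++ f i gs) n
  have hG1 : ∀ i, G (i + 1) = G i ++ f i (G i) := fun i => rfl
  have hG : ∀ i, IsSt (1/10) (3/2) (G i) := by
    intro i
    induction i with
    | zero => exact h0
    | succ i ih => rw [hG1]; exact (hf i (G i) ih).2.1
  refine ⟨G, hG, fun i => ⟨f i (G i), (hf i (G i) (hG i)).1, hG1 i⟩, fun i => ?_⟩
  rw [hG1]; exact (hf i (G i) (hG i)).2.2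

/-- **Main dynamical theorem.** -/
theorem dyn : ∃ γ : ℕ → ℝ, (∀ k : ℕ, 1 / ((k : ℝ) + 5) ≤ γ k ∧ γ k < 1 / 4) ∧
    ∃ c : ℝ, 0 < c ∧ ∀ η : ℝ, 0 < η → ∀ L N : ℕ, ∃ i w D : ℕ, N ≤ i ∧ N ≤ w ∧
      c < |rho (shift γ) i (fst (γ 0)) - rho (shift γ) (i + D) (fst (γ 0))| ∧
      ∀ t < L, |rho (shift γ) (w + t) (fst (γ 0)) - rho (shift γ) (w + t + D) (fst (γ 0))| < η := by
  obtain ⟨G, hG, hext, hstep⟩ := exists_seq
  have hlen : ∀ i, i ≤ (G i).length := by
    intro i
    induction i with
    | zero => exact Nat.zero_le _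
    | succ i ih =>
      obtain ⟨e, he, h⟩ := hext i
      rw [h, List.length_append]
      have : 0 < e.length := List.length_pos_iff.2 he
      omega
  have hpre : ∀ i j, i ≤ j → ∃ e, G j = G i ++ e := by
    intro i j hij
    induction j, hij using Nat.le_induction with
    | base => exact ⟨[], by simp⟩
    | succ j _ ih =>
      obtain ⟨e, he⟩ := ih
      obtain ⟨e', _, h⟩ := hext j
      exact ⟨e ++ e', by rw [h, he, List.append_assoc]⟩
  let γ : ℕ → ℝ := fun k => match k with
    | 0 => 1 / 5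
    | k + 1 => (G (k + 1)).getD k 0
  have hγ : ∀ k i (h : k < (G i).length), γ (k + 1) = (G i)[k] := by
    intro k i h
    have hk : k < (G (k + 1)).length := lt_of_lt_of_le (Nat.lt_succ_self k) (hlen (k + 1))
    show (G (k + 1)).getD k 0 = _
    rw [List.getD_eq_getElem _ _ hk]
    rcases le_total i (k + 1) with h1 | h1
    · obtain ⟨e, he⟩ := hpre _ _ h1
      simp only [he, List.getElem_append_left h]
    · obtain ⟨e, he⟩ := hpre _ _ h1
      simp only [he, List.getElem_append_left hk]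
  have hmap : ∀ i, (List.range (G i).length).map (shift γ) = G i := by
    intro i
    apply List.ext_getElem
    · simp
    · intro k h1 h2
      rw [List.getElem_map, List.getElem_range]
      exact hγ k i h2
  have hrho : ∀ i j, j < 2 ^ (G i).length → rho (shift γ) j = rhoL (G i) j := by
    intro i j hj
    rw [rho_eq _ j _ hj, hmap]
  have hfst : fst (γ 0) = 3 / 2 := by
    show fst (1 / 5) = 3 / 2
    unfold fst; norm_num
  refine ⟨γ, ?_, 1 / 10, by norm_num, ?_⟩
  · intro k
    cases k with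
    | zero => show 1 / (((0 : ℕ) : ℝ) + 5) ≤ 1 / 5 ∧ (1 : ℝ) / 5 < 1 / 4; norm_num
    | succ k =>
      have hk : k < (G (k + 1)).length := lt_of_lt_of_le (Nat.lt_succ_self k) (hlen (k + 1))
      rw [hγ k (k + 1) hk]
      obtain ⟨h1, h2, _⟩ := hG (k + 1)
      refine ⟨?_, (h1 _ (List.getElem_mem hk)).2⟩
      have := h2 k hk
      push_cast
      rw [show (k : ℝ) + 1 + 5 = k + 6 by ring]
      exact this
  · intro η hη L N
    obtain ⟨M, hM⟩ := exists_nat_one_div_lt hη
    set p := max M (max L N) with hp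
    obtain ⟨i, w, D, h1, h2, h3, h4, h5, h6⟩ := hstep p
    have hLp : L < 2 ^ (G p).length := by
      calc L ≤ p := by omega
        _ ≤ (G p).length := hlen p
        _ < _ := Nat.lt_two_pow_self
    refine ⟨i, w, D, by omega, by omega, ?_, ?_⟩
    · rw [hfst, hrho (p + 1) i (by omega), hrho (p + 1) (i + D) h3]; exact h5
    · intro t ht
      have ht' : t < 2 ^ (G p).length := lt_trans ht hLp
      rw [hfst, hrho (p + 1) (w + t) (by omega), hrho (p + 1) (w + t + D) (by omega)]
      refine lt_of_lt_of_le (h6 t ht') ?_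
      refine le_trans ?_ hM.le
      apply one_div_le_one_div_of_le (by positivity)
      have : (M : ℝ) ≤ p := by exact_mod_cast le_max_left _ _
      linarith

end Pool.Agent.CantorAP
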