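import Mathlib
import Pool.Agent.CantorAP.Construct

set_option autoImplicit false
open Filter Topology

namespace Pool.Agent.CantorAP

/-- admissible streams -/
def Adm (γ : ℕ → ℝ) : Prop := ∀ k, 0 < γ k ∧ γ k < 1 / 4

theorem Adm.shift {γ : ℕ → ℝ} (h : Adm γ) : Adm (shift γ) := fun k => h (k + 1)

theorem rho_pos {γ : ℕ → ℝ} (h : Adm γ) (j : ℕ) {f : ℝ} (hf : 1 ≤ f) : 0 < rho γ j f := by
  have := Gd_rhoL ((List.range j).map γ) j (by
    intro g hg
    rw [List.mem_map] at hg
    obtain ⟨k, _, rfl⟩ := hg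
    exact h k)
  rcases hf.lt_or_eq with h1 | h1
  · exact this.1.pos f h1
  · rw [← h1]; exact this.2

theorem rho_even (γ : ℕ → ℝ) (i : ℕ) (f : ℝ) : rho γ (2 * i) f =
    (1 - lam (γ 0) f) * rho (shift γ) i (fpr (γ 0) f) + lam (γ 0) f * rho (shift γ) i (fst (γ 0)) := by
  rw [rho_rec]
  have h1 : (2 * i).bodd = false := by simp
  have h2 : 2 * i / 2 = i := by omega
  rw [h1, h2]; simp [U, SS]

theorem rho_odd (γ : ℕ → ℝ) (i : ℕ) (f : ℝ) : rho γ (2 * i + 1) f =
    (1 - lam (γ 0) f) * rho (shift γ) i (fpr (γ 0) f) / rho γ (2 * i) f := by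
  rw [rho_rec γ (2 * i + 1), rho_even]
  have h1 : (2 * i + 1).bodd = true := by simp
  have h2 : (2 * i + 1) / 2 = i := by omega
  rw [h1, h2]; simp [U, SS]

/-- squares of the (normalised) recurrence coefficients -/
noncomputable def A (γ : ℕ → ℝ) (n : ℕ) : ℝ :=
  if n.bodd then (1 - 2 * γ 0) * rho (shift γ) (n / 2) (fst (γ 0))
  else (1 - 2 * γ 0) * (1 - rho (shift γ) (n / 2) (fst (γ 0)))

theorem A_odd (γ : ℕ → ℝ) (i : ℕ) :
    A γ (2 * i + 1) = (1 - 2 * γ 0) * rho (shift γ) i (fst (γ 0)) := by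
  have h1 : (2 * i + 1).bodd = true := by simp
  have h2 : (2 * i + 1) / 2 = i := by omega
  simp only [A, h1, h2, if_true]

theorem A_even (γ : ℕ → ℝ) (i : ℕ) :
    A γ (2 * i) = (1 - 2 * γ 0) * (1 - rho (shift γ) i (fst (γ 0))) := by
  have h1 : (2 * i).bodd = false := by simp
  have h2 : 2 * i / 2 = i := by omega
  simp only [A, h1, h2]; simp

theorem A_zero (γ : ℕ → ℝ) : A γ 0 = 0 := by
  have := A_even γ 0
  rw [rho_zero] at this
  simpa using this

theorem star (n : ℕ) : ∀ γ, Adm γ → ∀ f : ℝ, 1 ≤ f →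
    f ^ 2 * (rho γ n f * (1 - rho γ (n + 1) f)) = A γ (n + 1) := by
  induction n using Nat.strong_induction_on with
  | _ n ih =>
    intro γ hγ f hf
    have hg := hγ 0
    have hf0 : f ≠ 0 := by linarith
    have hg0 : γ 0 ≠ 0 := hg.1.ne'
    have hf1 := fpr_ge_one hg.1 hf
    have hfs := fst_ge_one hg.1 hg.2.le
    have e1 : lam (γ 0) f = 2 * γ 0 * fst (γ 0) / f ^ 2 := by
      unfold lam fst; field_simp
    have e2 : 1 - lam (γ 0) f = 2 * γ 0 * fpr (γ 0) f / f ^ 2 := by
      unfold lam fpr; field_simp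
    have e3 : 1 - 2 * γ 0 = 2 * γ 0 * fst (γ 0) := by unfold fst; field_simp
    rcases Nat.even_or_odd' n with ⟨i, rfl | rfl⟩
    · rw [rho_odd, A_odd, rho_even]
      have h1 := rho_pos hγ.shift i hf1
      have h2 := rho_pos hγ.shift i hfs
      rw [e2, e1, e3]
      have h3 : 0 < fpr (γ 0) f * rho (shift γ) i (fpr (γ 0) f) := by positivity
      have h4 : 0 < fst (γ 0) * rho (shift γ) i (fst (γ 0)) := by positivity
      have h5 : 2 * γ 0 * fpr (γ 0) f / f ^ 2 * rho (shift γ) i (fpr (γ 0) f) +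
          2 * γ 0 * fst (γ 0) / f ^ 2 * rho (shift γ) i (fst (γ 0)) ≠ 0 := by
        have := hg.1
        positivity
      rw [mul_sub, mul_div_cancel₀ _ h5]
      field_simp
      ring
    · have hi : i < 2 * i + 1 := by omega
      have k1 := ih i hi (shift γ) hγ.shift _ hf1
      have k2 := ih i hi (shift γ) hγ.shift _ hfs
      have h1 := rho_pos hγ.shift i hf1
      have h2 := rho_pos hγ.shift i hfs
      have hn : 2 * i + 1 + 1 = 2 * (i + 1) := by ring
      rw [rho_odd, hn, rho_even γ (i + 1), A_even, rho_even γ i, e3]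
      set a := rho (shift γ) i (fpr (γ 0) f)
      set b := rho (shift γ) i (fst (γ 0))
      set c := rho (shift γ) (i + 1) (fpr (γ 0) f)
      set d := rho (shift γ) (i + 1) (fst (γ 0))
      set x := fpr (γ 0) f
      set y := fst (γ 0)
      set A' := A (shift γ) (i + 1)
      have hx : 0 < x := by linarith
      have hy : 0 < y := by linarith
      have hc : c = 1 - A' / (x ^ 2 * a) := by
        rw [← k1]; field_simp; ring
      have hd : d = 1 - A' / (y ^ 2 * b) := by
        rw [← k2]; field_simp; ring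
      have hxa : 0 < x * a := by positivity
      have hyb : 0 < y * b := by positivity
      have hs : (2 * γ 0 * x / f ^ 2) + (2 * γ 0 * y / f ^ 2) = 1 := by
        rw [← e1, ← e2]; ring
      rw [e2, e1]
      have h7 : 1 - (2 * γ 0 * x / f ^ 2 * c + 2 * γ 0 * y / f ^ 2 * d) =
          2 * γ 0 * x / f ^ 2 * (1 - c) + 2 * γ 0 * y / f ^ 2 * (1 - d) := by
        linear_combination (-1) * hs
      rw [h7]
      have h8 : (1 - c) = A' / (x ^ 2 * a) := by rw [hc]; ring
      have h9 : (1 - d) = A' / (y ^ 2 * b) := by rw [hd]; ring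
      rw [h8, h9]
      have h10 : 2 * γ 0 * x / f ^ 2 * a + 2 * γ 0 * y / f ^ 2 * b = 2 * γ 0 / f ^ 2 * (x * a + y * b) := by
        ring
      rw [h10]
      have h11 : x * a + y * b ≠ 0 := by positivity
      have := hg.1
      field_simp
      ring

theorem A_pos (n : ℕ) : ∀ γ, Adm γ → 0 < A γ (n + 1) := by
  induction n using Nat.strong_induction_on with
  | _ n ih =>
    intro γ hγ
    have hg := hγ 0
    have hfs := fst_ge_one hg.1 hg.2.le
    rcases Nat.even_or_odd' n with ⟨i, rfl | rfl⟩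
    · rw [A_odd]
      have := rho_pos hγ.shift i hfs
      have : 0 < 1 - 2 * γ 0 := by linarith [hg.2]
      positivity
    · have hn : 2 * i + 1 + 1 = 2 * (i + 1) := by ring
      rw [hn, A_even]
      have h1 := ih i (by omega) (shift γ) hγ.shift
      have h2 := star i (shift γ) hγ.shift _ hfs
      have h3 := rho_pos hγ.shift i hfs
      have h4 : 0 < 1 - rho (shift γ) (i + 1) (fst (γ 0)) := by
        by_contra hcon
        push Not at hcon
        have : rho (shift γ) i (fst (γ 0)) * (1 - rho (shift γ) (i + 1) (fst (γ 0))) ≤ 0 :=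
          mul_nonpos_of_nonneg_of_nonpos h3.le hcon
        have : fst (γ 0) ^ 2 * (rho (shift γ) i (fst (γ 0)) * (1 - rho (shift γ) (i + 1) (fst (γ 0)))) ≤ 0 :=
          mul_nonpos_of_nonneg_of_nonpos (by positivity) this
        linarith
      have : 0 < 1 - 2 * γ 0 := by linarith [hg.2]
      positivity

theorem A_add (γ : ℕ → ℝ) (i : ℕ) : A γ (2 * i) + A γ (2 * i + 1) = 1 - 2 * γ 0 := by
  rw [A_even, A_odd]; ring

theorem A_mul {γ : ℕ → ℝ} (hγ : Adm γ) (i : ℕ) :
    A γ (2 * i + 1) * A γ (2 * i + 2) = 4 * γ 0 ^ 2 * A (shift γ) (i + 1) := by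
  have hg := hγ 0
  have hfs := fst_ge_one hg.1 hg.2.le
  have h2 := star i (shift γ) hγ.shift _ hfs
  have hg0 : γ 0 ≠ 0 := hg.1.ne'
  have e3 : 1 - 2 * γ 0 = 2 * γ 0 * fst (γ 0) := by unfold fst; field_simp
  rw [show 2 * i + 2 = 2 * (i + 1) by ring, A_even, A_odd, ← h2, e3]
  ring

theorem A_le_one {γ : ℕ → ℝ} (hγ : Adm γ) (n : ℕ) : 0 ≤ A γ n ∧ A γ n ≤ 1 := by
  have hA : ∀ m, 0 ≤ A γ m := by
    intro m
    cases m with
    | zero => rw [A_zero]
    | succ m => exact (A_pos m γ hγ).le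
  refine ⟨hA n, ?_⟩
  have hg := (hγ 0).1
  rcases Nat.even_or_odd' n with ⟨i, rfl | rfl⟩
  · have := A_add γ i
    have := hA (2 * i + 1)
    linarith
  · have := A_add γ i
    have := hA (2 * i)
    linarith

end Pool.Agent.CantorAP
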