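import Mathlib
import Pool.Agent.CantorAP.Coeff

set_option autoImplicit false
open Filter Topology MeasureTheory Polynomial

namespace Pool.Agent.CantorAP

/-- the level map -/
noncomputable def Fm (g x : ℝ) : ℝ := (x ^ 2 - (1 - 2 * g)) / (2 * g)

theorem Fm_cont (g : ℝ) : Continuous (Fm g) := by unfold Fm; fun_prop

/-- monic orthogonal polynomials given by the recursion -/
noncomputable def P (γ : ℕ → ℝ) : ℕ → ℝ[X]
  | 0 => 1
  | 1 => X
  | n + 2 => X * P γ (n + 1) - C (A γ (n + 1)) * P γ n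

theorem P_rec (γ : ℕ → ℝ) (n : ℕ) (x : ℝ) :
    (P γ (n + 2)).eval x = x * (P γ (n + 1)).eval x - A γ (n + 1) * (P γ n).eval x := by
  rw [P]; simp

theorem P_rec' (γ : ℕ → ℝ) (n : ℕ) (x : ℝ) :
    x * (P γ (n + 1)).eval x = (P γ (n + 2)).eval x + A γ (n + 1) * (P γ n).eval x := by
  rw [P_rec]; ring

theorem P_even {γ : ℕ → ℝ} (hγ : Adm γ) (x : ℝ) : ∀ i : ℕ,
    (P γ (2 * i)).eval x = (2 * γ 0) ^ i * (P (shift γ) i).eval (Fm (γ 0) x) := by
  have hg0 : γ 0 ≠ 0 := (hγ 0).1.ne'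
  have hF : 2 * γ 0 * Fm (γ 0) x = x ^ 2 - (1 - 2 * γ 0) := by unfold Fm; field_simp
  have two : ∀ i : ℕ, (P γ (2 * i)).eval x = (2 * γ 0) ^ i * (P (shift γ) i).eval (Fm (γ 0) x) ∧
      (P γ (2 * (i + 1))).eval x = (2 * γ 0) ^ (i + 1) * (P (shift γ) (i + 1)).eval (Fm (γ 0) x) := by
    intro i
    induction i with
    | zero =>
      refine ⟨by simp [P], ?_⟩
      have h1 : A γ 1 = 1 - 2 * γ 0 := by
        have := A_odd γ 0
        rw [rho_zero] at this
        simpa using this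
      simp only [zero_add, mul_one, pow_one]
      rw [show (2 : ℕ) = 0 + 2 by norm_num, P_rec]
      simp only [P, zero_add, eval_X, eval_one, h1]
      rw [hF]; ring
    | succ i ih =>
      refine ⟨ih.2, ?_⟩
      have e1 : 2 * (i + 1 + 1) = (2 * i + 2) + 2 := by ring
      have e2 : 2 * (i + 1) = 2 * i + 2 := by ring
      rw [e1, P_rec]
      have h1 := P_rec γ (2 * i + 1) x
      have h2 := P_rec' γ (2 * i) x
      have h3 := A_add γ (i + 1)
      have h4 := A_mul hγ i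
      obtain ⟨ih1, ih2⟩ := ih
      rw [e2] at ih2
      rw [show 2 * (i + 1) = 2 * i + 2 by ring] at h3
      rw [show 2 * i + 2 + 1 = 2 * i + 1 + 2 by ring] at *
      rw [show 2 * i + 1 + 2 = 2 * i + 3 by ring] at *
      rw [show 2 * i + 1 + 1 = 2 * i + 2 by ring] at *
      rw [h1, P_rec (shift γ) i]
      have h5 : x * (x * (P γ (2 * i + 2)).eval x - A γ (2 * i + 2) * (P γ (2 * i + 1)).eval x) -
          A γ (2 * i + 3) * (P γ (2 * i + 2)).eval x =
          (x ^ 2 - (A γ (2 * i + 2) + A γ (2 * i + 3))) * (P γ (2 * i + 2)).eval x -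
          A γ (2 * i + 1) * A γ (2 * i + 2) * (P γ (2 * i)).eval x := by
        linear_combination (-A γ (2 * i + 2)) * h2
      rw [h5, h3, h4, ih1, ih2, ← hF]
      ring
  exact fun i => (two i).1

theorem P_neg (γ : ℕ → ℝ) (x : ℝ) : ∀ n : ℕ, (P γ n).eval (-x) = (-1) ^ n * (P γ n).eval x := by
  have two : ∀ n : ℕ, (P γ n).eval (-x) = (-1) ^ n * (P γ n).eval x ∧
      (P γ (n + 1)).eval (-x) = (-1) ^ (n + 1) * (P γ (n + 1)).eval x := by
    intro n
    induction n with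
    | zero => simp [P]
    | succ n ih =>
      refine ⟨ih.2, ?_⟩
      rw [show n + 1 + 1 = n + 2 by ring, P_rec, P_rec, ih.1, ih.2]
      ring
  exact fun n => (two n).1

theorem P_deg (γ : ℕ → ℝ) : ∀ n : ℕ, (P γ n).natDegree = n ∧ (P γ n).Monic := by
  have two : ∀ n : ℕ, ((P γ n).natDegree = n ∧ (P γ n).Monic) ∧
      ((P γ (n + 1)).natDegree = n + 1 ∧ (P γ (n + 1)).Monic) := by
    intro n
    induction n with
    | zero => simp [P, monic_X]
    | succ n ih =>
      refine ⟨ih.2, ?_⟩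
      obtain ⟨⟨d0, m0⟩, ⟨d1, m1⟩⟩ := ih
      have hM : (X * P γ (n + 1)).Monic := monic_X.mul m1
      have hd : (X * P γ (n + 1)).natDegree = n + 2 := by
        rw [monic_X.natDegree_mul m1, natDegree_X, d1]; ring
      have hnd : (C (A γ (n + 1)) * P γ n).natDegree < (X * P γ (n + 1)).natDegree := by
        rw [hd]
        refine lt_of_le_of_lt (natDegree_C_mul_le _ _) ?_
        rw [d0]; omega
      have hlt : (C (A γ (n + 1)) * P γ n).degree < (X * P γ (n + 1)).degree :=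
        degree_lt_degree hnd
      show (X * P γ (n + 1) - C (A γ (n + 1)) * P γ n).natDegree = n + 2 ∧
        (X * P γ (n + 1) - C (A γ (n + 1)) * P γ n).Monic
      refine ⟨?_, hM.sub_of_left hlt⟩
      rw [natDegree_sub_eq_left_of_natDegree_lt hnd, hd]
  exact fun n => (two n).1

/-- A consistent family of measures. -/
structure Fam (μ : (ℕ → ℝ) → Measure ℝ) : Prop where
  prob : ∀ γ, Adm γ → IsProbabilityMeasure (μ γ)
  supp : ∀ γ, Adm γ → μ γ (Set.Icc (-1) 1)ᶜ = 0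
  symm : ∀ γ, Adm γ → (μ γ).map (fun x => -x) = μ γ
  push : ∀ γ, Adm γ → (μ γ).map (Fm (γ 0)) = μ (shift γ)

variable {μ : (ℕ → ℝ) → Measure ℝ}

theorem Fam.integrable (hμ : Fam μ) {γ : ℕ → ℝ} (hγ : Adm γ) {g : ℝ → ℝ} (hg : Continuous g) :
    Integrable g (μ γ) := by
  have := hμ.prob γ hγ
  have h1 : IntegrableOn g (Set.Icc (-1) 1) (μ γ) := hg.continuousOn.integrableOn_compact isCompact_Icc
  rw [IntegrableOn, Measure.restrict_eq_self_of_ae_mem] at h1
  · exact h1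
  · rw [ae_iff]; exact hμ.supp γ hγ

noncomputable def J (μ : (ℕ → ℝ) → Measure ℝ) (γ : ℕ → ℝ) (m n : ℕ) : ℝ :=
  ∫ x, (P γ m).eval x * (P γ n).eval x ∂(μ γ)

theorem J_comm (γ : ℕ → ℝ) (m n : ℕ) : J μ γ m n = J μ γ n m := by
  unfold J; congr 1; funext x; ring

theorem Fam.J_even (hμ : Fam μ) {γ : ℕ → ℝ} (hγ : Adm γ) (i j : ℕ) :
    J μ γ (2 * i) (2 * j) = (2 * γ 0) ^ (i + j) * J μ (shift γ) i j := by
  unfold J
  rw [← hμ.push γ hγ, integral_map (Fm_cont _).aemeasurable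
    (Continuous.aestronglyMeasurable (by fun_prop)), ← integral_const_mul]
  congr 1; funext x
  rw [P_even hγ, P_even hγ]; ring

theorem Fam.J_parity (hμ : Fam μ) {γ : ℕ → ℝ} (hγ : Adm γ) (m n : ℕ) (h : Odd (m + n)) :
    J μ γ m n = 0 := by
  have h1 : J μ γ m n = ∫ x, (P γ m).eval (-x) * (P γ n).eval (-x) ∂(μ γ) := by
    unfold J
    conv_lhs => rw [← hμ.symm γ hγ]
    rw [integral_map (by fun_prop) (Continuous.aestronglyMeasurable (by fun_prop))]
  have h2 : (∫ x, (P γ m).eval (-x) * (P γ n).eval (-x) ∂(μ γ)) = - J μ γ m n := by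
    unfold J
    rw [← integral_neg]
    congr 1; funext x
    rw [P_neg, P_neg]
    have : (-1 : ℝ) ^ m * (-1) ^ n = -1 := by rw [← pow_add]; exact h.neg_one_pow
    linear_combination ((P γ m).eval x * (P γ n).eval x) * this
  linarith

/-- `∫ x P_{m+1} P_n`. -/
theorem Fam.J_x (hμ : Fam μ) {γ : ℕ → ℝ} (hγ : Adm γ) (m n : ℕ) :
    ∫ x, x * (P γ (m + 1)).eval x * (P γ n).eval x ∂(μ γ) =
      J μ γ (m + 2) n + A γ (m + 1) * J μ γ m n := by
  unfold J
  rw [← integral_const_mul, ← integral_add (hμ.integrable hγ (by fun_prop))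
    (hμ.integrable hγ (by fun_prop))]
  congr 1; funext x
  rw [P_rec']; ring

theorem J_x0 {γ : ℕ → ℝ} (n : ℕ) :
    ∫ x, x * (P γ 0).eval x * (P γ n).eval x ∂(μ γ) = J μ γ 1 n := by
  unfold J
  congr 1; funext x
  simp [P]

theorem Fam.orth (hμ : Fam μ) (N : ℕ) : ∀ γ, Adm γ → ∀ m n, m + n = N → m ≠ n → J μ γ m n = 0 := by
  induction N using Nat.strong_induction_on with
  | _ N ih =>
    have key : ∀ γ, Adm γ → ∀ m n, m + n = N → m < n → J μ γ m n = 0 := by
      intro γ hγ m n hmn hne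
      rcases Nat.even_or_odd' m with ⟨i, rfl | rfl⟩ <;> rcases Nat.even_or_odd' n with ⟨j, rfl | rfl⟩
      · rw [hμ.J_even hγ, ih (i + j) (by omega) (shift γ) hγ.shift i j rfl (by omega), mul_zero]
      · exact hμ.J_parity hγ _ _ ⟨i + j, by ring⟩
      · exact hμ.J_parity hγ _ _ ⟨i + j, by ring⟩
      · have hij : i < j := by omega
        have a1 : J μ γ (2 * i) (2 * j + 2) = 0 := by
          rw [show 2 * j + 2 = 2 * (j + 1) by ring, hμ.J_even hγ,
            ih (i + (j + 1)) (by omega) (shift γ) hγ.shift i (j + 1) rfl (by omega), mul_zero]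
        have a2 : J μ γ (2 * i) (2 * j) = 0 := by
          rw [hμ.J_even hγ, ih (i + j) (by omega) (shift γ) hγ.shift i j rfl (by omega), mul_zero]
        -- `∫ x P_{2j+1} P_{2i}`
        have a3 := hμ.J_x hγ (2 * j) (2 * i)
        rw [J_comm γ (2 * j + 2), J_comm γ (2 * j), a1, a2, mul_zero, add_zero] at a3
        rcases Nat.eq_zero_or_pos i with h0 | hpos
        · subst h0
          simp only [mul_zero, zero_add] at a3 ⊢
          unfold J
          rw [← a3]
          congr 1; funext x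
          simp [P]
        · obtain ⟨i', rfl⟩ : ∃ i', i = i' + 1 := ⟨i - 1, by omega⟩
          have a4 := hμ.J_x hγ (2 * i' + 1) (2 * j + 1)
          have a5 : J μ γ (2 * i' + 1) (2 * j + 1) = 0 :=
            ih (2 * i' + 1 + (2 * j + 1)) (by omega) γ hγ _ _ rfl (by omega)
          rw [a5, mul_zero, add_zero] at a4
          rw [show 2 * (i' + 1) + 1 = 2 * i' + 1 + 2 by ring, ← a4]
          rw [show 2 * (i' + 1) = 2 * i' + 1 + 1 by ring] at a3
          rw [← a3]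
          congr 1; funext x; ring
    intro γ hγ m n hmn hne
    rcases lt_or_gt_of_ne hne with h | h
    · exact key γ hγ m n hmn h
    · rw [J_comm]; exact key γ hγ n m (by omega) h

theorem Fam.orth' (hμ : Fam μ) {γ : ℕ → ℝ} (hγ : Adm γ) {m n : ℕ} (h : m ≠ n) : J μ γ m n = 0 :=
  hμ.orth (m + n) γ hγ m n rfl h

theorem Fam.J_xx (hμ : Fam μ) {γ : ℕ → ℝ} (hγ : Adm γ) (n : ℕ) :
    ∫ x, x * (P γ n).eval x * (P γ (n + 1)).eval x ∂(μ γ) = J μ γ (n + 1) (n + 1) := by
  cases n with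
  | zero => exact J_x0 1
  | succ n => rw [hμ.J_x hγ, hμ.orth' hγ (by omega : n ≠ n + 1 + 1), mul_zero, add_zero]

theorem Fam.norm_succ (hμ : Fam μ) {γ : ℕ → ℝ} (hγ : Adm γ) (n : ℕ) :
    J μ γ (n + 1) (n + 1) = A γ (n + 1) * J μ γ n n := by
  rw [← hμ.J_xx hγ]
  have := hμ.J_x hγ n n
  rw [hμ.orth' hγ (by omega : n + 2 ≠ n), zero_add] at this
  rw [← this]
  congr 1; funext x; ring

theorem Fam.norm_zero (hμ : Fam μ) {γ : ℕ → ℝ} (hγ : Adm γ) : J μ γ 0 0 = 1 := by
  have := hμ.prob γ hγ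
  simp [J, P]

theorem Fam.norm_pos (hμ : Fam μ) {γ : ℕ → ℝ} (hγ : Adm γ) (n : ℕ) : 0 < J μ γ n n := by
  induction n with
  | zero => rw [hμ.norm_zero hγ]; exact one_pos
  | succ n ih => rw [hμ.norm_succ hγ]; exact mul_pos (A_pos n γ hγ) ih

end Pool.Agent.CantorAP
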