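import Mathlib
import Pool.Agent.CantorAP.Poly

set_option autoImplicit false
open Filter Topology MeasureTheory

namespace Pool.Agent.CantorAP

noncomputable def X0 (u : ℝ) : ℝ := max (-1) (min 1 (2 * u - 1))
noncomputable def sg (u : ℝ) : ℝ := if u < 1 / 2 then -1 else 1
noncomputable def tent (u : ℝ) : ℝ := |2 * u - 1|
noncomputable def br (g w : ℝ) : ℝ := Real.sqrt (1 - 2 * g + 2 * g * w)

noncomputable def Xn : ℕ → (ℕ → ℝ) → ℝ → ℝ
  | 0, _, u => X0 u
  | n + 1, γ, u => sg u * br (γ 0) (Xn n (shift γ) (tent u))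

theorem sg_sq (u : ℝ) : sg u ^ 2 = 1 := by unfold sg; split_ifs <;> norm_num

theorem br_mem {g w : ℝ} (h0 : 0 < g) (h1 : g < 1 / 4) (hw : w ∈ Set.Icc (-1 : ℝ) 1) :
    br g w ∈ Set.Icc (0 : ℝ) 1 := by
  refine ⟨Real.sqrt_nonneg _, ?_⟩
  unfold br
  rw [Real.sqrt_le_left (by norm_num)]
  nlinarith [hw.1, hw.2]

theorem br_sq {g w : ℝ} (h0 : 0 < g) (h1 : g < 1 / 4) (hw : w ∈ Set.Icc (-1 : ℝ) 1) :
    br g w ^ 2 = 1 - 2 * g + 2 * g * w := by
  unfold br
  rw [Real.sq_sqrt]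
  nlinarith [hw.1, hw.2]

theorem sg_mul_mem {u x : ℝ} (hx : x ∈ Set.Icc (0 : ℝ) 1) : sg u * x ∈ Set.Icc (-1 : ℝ) 1 := by
  unfold sg
  split_ifs
  · exact ⟨by linarith [hx.2], by linarith [hx.1]⟩
  · exact ⟨by linarith [hx.1], by linarith [hx.2]⟩

theorem Xn_mem (n : ℕ) : ∀ γ, Adm γ → ∀ u, Xn n γ u ∈ Set.Icc (-1 : ℝ) 1 := by
  induction n with
  | zero => intro γ _ u; simp only [Xn, X0]; constructor <;> simp
  | succ n ih =>
    intro γ hγ u
    simp only [Xn]
    exact sg_mul_mem (br_mem (hγ 0).1 (hγ 0).2 (ih _ hγ.shift _))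

/-! ### contraction -/

theorem sin_contr {a t1 t2 p1 p2 : ℝ} (ha0 : 0 ≤ a) (ha1 : a ≤ 1) (h1 : 0 ≤ t1)
    (h12 : t1 ≤ t2) (h2 : t2 ≤ Real.pi / 2) (hp1 : p1 ∈ Set.Icc 0 (Real.pi / 2))
    (hp2 : p2 ∈ Set.Icc 0 (Real.pi / 2)) (e1 : Real.sin p1 = a * Real.sin t1)
    (e2 : Real.sin p2 = a * Real.sin t2) : |p2 - p1| ≤ t2 - t1 := by
  have hpi := Real.pi_pos
  have s1 : 0 ≤ Real.sin t1 := Real.sin_nonneg_of_nonneg_of_le_pi h1 (by linarith)
  have mono : ∀ {x y : ℝ}, x ∈ Set.Icc 0 (Real.pi / 2) → y ∈ Set.Icc 0 (Real.pi / 2) →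
      (Real.sin x ≤ Real.sin y ↔ x ≤ y) := fun {x y} hx hy =>
    Real.strictMonoOn_sin.le_iff_le ⟨by linarith [hx.1], hx.2⟩ ⟨by linarith [hy.1], hy.2⟩
  have hs12 : Real.sin t1 ≤ Real.sin t2 := (mono ⟨h1, by linarith⟩ ⟨by linarith, h2⟩).2 h12
  have hp12 : p1 ≤ p2 := by
    rw [← mono hp1 hp2, e1, e2]; exact mul_le_mul_of_nonneg_left hs12 ha0
  rw [abs_of_nonneg (by linarith)]
  have hpt : p1 ≤ t1 := by
    rw [← mono hp1 ⟨h1, by linarith⟩, e1]; exact mul_le_of_le_one_left s1 ha1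
  by_contra hcon
  push Not at hcon
  set δ := t2 - t1 with hδ
  have hδ0 : 0 ≤ δ := by linarith
  have hlt : Real.sin (p1 + δ) < Real.sin p2 :=
    Real.strictMonoOn_sin ⟨by linarith [hp1.1], by linarith [hp2.2]⟩
      ⟨by linarith [hp2.1], hp2.2⟩ (by linarith)
  have hc : Real.cos t1 ≤ Real.cos p1 :=
    Real.cos_le_cos_of_nonneg_of_le_pi hp1.1 (by linarith) hpt
  have hc0 : 0 ≤ Real.cos t1 := Real.cos_nonneg_of_neg_pi_div_two_le_of_le (by linarith) (by linarith)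
  have hsδ : 0 ≤ Real.sin δ := Real.sin_nonneg_of_nonneg_of_le_pi hδ0 (by linarith)
  have hac : a * Real.cos t1 ≤ Real.cos p1 := le_trans (mul_le_of_le_one_left hc0 ha1) hc
  have e3 : Real.sin t2 = Real.sin t1 * Real.cos δ + Real.cos t1 * Real.sin δ := by
    rw [← Real.sin_add]; congr 1; ring
  rw [Real.sin_add, e1, e2, e3] at hlt
  nlinarith [mul_le_mul_of_nonneg_right hac hsδ]

theorem arccos_br {g w : ℝ} (h0 : 0 < g) (h1 : g < 1 / 4) (hw : w ∈ Set.Icc (-1 : ℝ) 1) :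
    Real.arccos (br g w) ∈ Set.Icc 0 (Real.pi / 2) ∧
    Real.sin (Real.arccos (br g w)) = Real.sqrt (4 * g) * Real.sin (Real.arccos w / 2) := by
  have hm := br_mem h0 h1 hw
  refine ⟨⟨Real.arccos_nonneg _, ?_⟩, ?_⟩
  · rw [Real.arccos_le_pi_div_two]; exact hm.1
  · rw [Real.sin_arccos, br_sq h0 h1 hw]
    have hs : 0 ≤ Real.sin (Real.arccos w / 2) := by
      apply Real.sin_nonneg_of_nonneg_of_le_pi
      · linarith [Real.arccos_nonneg w]
      · linarith [Real.arccos_le_pi w, Real.pi_pos]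
    have h2 : w = 1 - 2 * Real.sin (Real.arccos w / 2) ^ 2 := by
      have h3 := Real.cos_two_mul (Real.arccos w / 2)
      rw [show 2 * (Real.arccos w / 2) = Real.arccos w by ring, Real.cos_arccos hw.1 hw.2] at h3
      have h4 := Real.sin_sq_add_cos_sq (Real.arccos w / 2)
      linarith
    have h5 : 1 - (1 - 2 * g + 2 * g * w) = 4 * g * Real.sin (Real.arccos w / 2) ^ 2 := by
      conv_lhs => rw [h2]
      ring
    rw [h5, Real.sqrt_mul (by linarith), Real.sqrt_sq hs]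

theorem arccos_contr {g w1 w2 : ℝ} (h0 : 0 < g) (h1 : g < 1 / 4)
    (hw1 : w1 ∈ Set.Icc (-1 : ℝ) 1) (hw2 : w2 ∈ Set.Icc (-1 : ℝ) 1) :
    |Real.arccos (br g w1) - Real.arccos (br g w2)| ≤ |Real.arccos w1 - Real.arccos w2| / 2 := by
  obtain ⟨a1, b1⟩ := arccos_br h0 h1 hw1
  obtain ⟨a2, b2⟩ := arccos_br h0 h1 hw2
  have hs : Real.sqrt (4 * g) ≤ 1 := by rw [Real.sqrt_le_left (by norm_num)]; linarith
  have n1 := Real.arccos_nonneg w1
  have n2 := Real.arccos_nonneg w2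
  have m1 := Real.arccos_le_pi w1
  have m2 := Real.arccos_le_pi w2
  rcases le_total (Real.arccos w1) (Real.arccos w2) with h | h
  · rw [abs_sub_comm, abs_sub_comm (Real.arccos w1), abs_of_nonneg (sub_nonneg.2 h)]
    refine le_trans (sin_contr (Real.sqrt_nonneg _) hs (by linarith) (by linarith : _ ≤ Real.arccos w2 / 2)
      (by linarith) a1 a2 b1 b2) (by linarith)
  · rw [abs_of_nonneg (sub_nonneg.2 h)]
    refine le_trans (sin_contr (Real.sqrt_nonneg _) hs (by linarith) (by linarith : _ ≤ Real.arccos w1 / 2)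
      (by linarith) a2 a1 b2 b1) (by linarith)

theorem arccos_sg (u x y : ℝ) :
    |Real.arccos (sg u * x) - Real.arccos (sg u * y)| = |Real.arccos x - Real.arccos y| := by
  unfold sg
  split_ifs
  · rw [neg_one_mul, neg_one_mul, Real.arccos_neg, Real.arccos_neg]
    rw [abs_sub_comm]; congr 1; ring
  · rw [one_mul, one_mul]

theorem Xn_arccos (n : ℕ) : ∀ γ, Adm γ → ∀ u,
    |Real.arccos (Xn (n + 1) γ u) - Real.arccos (Xn n γ u)| ≤ Real.pi * (1 / 2) ^ n := by
  induction n with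
  | zero =>
    intro γ _ u
    rw [pow_zero, mul_one, abs_le]
    constructor <;>
      linarith [Real.arccos_nonneg (Xn (0 + 1) γ u), Real.arccos_nonneg (Xn 0 γ u),
        Real.arccos_le_pi (Xn (0 + 1) γ u), Real.arccos_le_pi (Xn 0 γ u)]
  | succ n ih =>
    intro γ hγ u
    have h := ih _ hγ.shift (tent u)
    have e1 : Xn (n + 1 + 1) γ u = sg u * br (γ 0) (Xn (n + 1) (shift γ) (tent u)) := rfl
    have e2 : Xn (n + 1) γ u = sg u * br (γ 0) (Xn n (shift γ) (tent u)) := rfl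
    rw [e1, e2, arccos_sg]
    refine le_trans (arccos_contr (hγ 0).1 (hγ 0).2 (Xn_mem _ _ hγ.shift _) (Xn_mem _ _ hγ.shift _)) ?_
    rw [pow_succ]; linarith

theorem Xn_dist (n : ℕ) {γ : ℕ → ℝ} (hγ : Adm γ) (u : ℝ) :
    dist (Xn n γ u) (Xn (n + 1) γ u) ≤ Real.pi * (1 / 2) ^ n := by
  have h1 := Xn_mem n γ hγ u
  have h2 := Xn_mem (n + 1) γ hγ u
  rw [Real.dist_eq, ← Real.cos_arccos h1.1 h1.2, ← Real.cos_arccos h2.1 h2.2]
  refine le_trans (Real.abs_cos_sub_cos_le _ _) ?_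
  rw [abs_sub_comm]
  exact Xn_arccos n γ hγ u

noncomputable def XX (γ : ℕ → ℝ) (u : ℝ) : ℝ := limUnder atTop (fun n => Xn n γ u)

theorem XX_tendsto {γ : ℕ → ℝ} (hγ : Adm γ) (u : ℝ) :
    Tendsto (fun n => Xn n γ u) atTop (𝓝 (XX γ u)) := by
  have : CauchySeq (fun n => Xn n γ u) :=
    cauchySeq_of_le_geometric (1 / 2) Real.pi (by norm_num) (fun n => Xn_dist n hγ u)
  exact this.tendsto_limUnder

theorem XX_mem {γ : ℕ → ℝ} (hγ : Adm γ) (u : ℝ) : XX γ u ∈ Set.Icc (-1 : ℝ) 1 :=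
  isClosed_Icc.mem_of_tendsto (XX_tendsto hγ u) (Eventually.of_forall fun n => Xn_mem n γ hγ u)

theorem XX_eq {γ : ℕ → ℝ} (hγ : Adm γ) (u : ℝ) :
    XX γ u = sg u * br (γ 0) (XX (shift γ) (tent u)) := by
  refine tendsto_nhds_unique ((tendsto_add_atTop_iff_nat 1).2 (XX_tendsto hγ u)) ?_
  have h : Continuous (fun w => sg u * br (γ 0) w) := by unfold br; fun_prop
  exact (h.tendsto _).comp (XX_tendsto hγ.shift (tent u))

theorem tent_meas : Measurable tent := by unfold tent; fun_prop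
theorem sg_meas : Measurable sg := by
  unfold sg
  exact Measurable.ite measurableSet_Iio measurable_const measurable_const

theorem Xn_meas (n : ℕ) : ∀ γ, Measurable (Xn n γ) := by
  induction n with
  | zero =>
    intro γ
    have : Xn 0 γ = X0 := rfl
    rw [this]; unfold X0; fun_prop
  | succ n ih =>
    intro γ
    have h : Continuous (fun w => br (γ 0) w) := by unfold br; fun_prop
    exact sg_meas.mul (h.measurable.comp ((ih _).comp tent_meas))

theorem XX_meas {γ : ℕ → ℝ} (hγ : Adm γ) : Measurable (XX γ) :=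
  measurable_of_tendsto_metrizable (fun n => Xn_meas n γ) (tendsto_pi_nhds.2 (XX_tendsto hγ))

theorem Fm_sg_br {g w u : ℝ} (h0 : 0 < g) (h1 : g < 1 / 4) (hw : w ∈ Set.Icc (-1 : ℝ) 1) :
    Fm g (sg u * br g w) = w := by
  unfold Fm
  rw [mul_pow, sg_sq, one_mul, br_sq h0 h1 hw]
  field_simp
  ring

/-! ### Lebesgue measure on `[0,1]` -/

noncomputable def lamM : Measure ℝ := volume.restrict (Set.Icc 0 1)

instance : IsProbabilityMeasure lamM := ⟨by simp [lamM]⟩

theorem lamM_refl : MeasurePreserving (fun u : ℝ => 1 - u) lamM lamM := by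
  have h := (Measure.measurePreserving_sub_left (volume : Measure ℝ) 1).restrict_preimage
    (measurableSet_Icc (a := (0 : ℝ)) (b := 1))
  have e : (fun t : ℝ => 1 - t) ⁻¹' Set.Icc 0 1 = Set.Icc 0 1 := by
    ext x; simp only [Set.mem_preimage, Set.mem_Icc]; constructor <;> intro h <;> constructor <;> linarith [h.1, h.2]
  rw [e] at h
  exact h

theorem lamM_tent : MeasurePreserving tent lamM lamM := by
  refine ⟨tent_meas, ?_⟩
  ext S hS
  rw [Measure.map_apply tent_meas hS]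
  unfold lamM
  rw [Measure.restrict_apply (tent_meas hS), Measure.restrict_apply hS]
  have e : tent ⁻¹' S ∩ Set.Icc 0 1 =
      ((fun u : ℝ => 2 * u) ⁻¹' ((fun u : ℝ => u + (-1)) ⁻¹' (S ∩ Set.Icc 0 1))) ∪
      ((fun u : ℝ => (-2) * u) ⁻¹' ((fun u : ℝ => u + 1) ⁻¹' (S ∩ Set.Ioc 0 1))) := by
    ext u
    simp only [tent, Set.mem_inter_iff, Set.mem_preimage, Set.mem_Icc, Set.mem_union, Set.mem_Ioc]
    constructor
    · rintro ⟨h1, h2, h3⟩
      rcases le_or_gt 0 (2 * u - 1) with h | h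
      · left
        rw [abs_of_nonneg h] at h1
        refine ⟨by rwa [← sub_eq_add_neg], by linarith, by linarith⟩
      · right
        rw [abs_of_neg h] at h1
        refine ⟨?_, by linarith, by linarith⟩
        rw [show -2 * u + 1 = -(2 * u - 1) by ring]; exact h1
    · rintro (⟨h1, h2, h3⟩ | ⟨h1, h2, h3⟩)
      · refine ⟨?_, by linarith, by linarith⟩
        rw [abs_of_nonneg (by linarith), sub_eq_add_neg]; exact h1
      · refine ⟨?_, by linarith, by linarith⟩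
        rw [abs_of_neg (by linarith), show -(2 * u - 1) = -2 * u + 1 by ring]; exact h1
  have hm1 : MeasurableSet (S ∩ Set.Icc (0 : ℝ) 1) := hS.inter measurableSet_Icc
  have hm2 : MeasurableSet (S ∩ Set.Ioc (0 : ℝ) 1) := hS.inter measurableSet_Ioc
  have hdisj : Disjoint
      ((fun u : ℝ => 2 * u) ⁻¹' ((fun u : ℝ => u + (-1)) ⁻¹' (S ∩ Set.Icc 0 1)))
      ((fun u : ℝ => (-2) * u) ⁻¹' ((fun u : ℝ => u + 1) ⁻¹' (S ∩ Set.Ioc 0 1))) := by
    rw [Set.disjoint_left]
    rintro u ⟨_, h1, _⟩ ⟨_, h2, _⟩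
    simp only at h1 h2
    linarith
  have hI : volume (S ∩ Set.Ioc (0 : ℝ) 1) = volume (S ∩ Set.Icc (0 : ℝ) 1) :=
    measure_congr ((ae_eq_refl S).inter Ioc_ae_eq_Icc)
  rw [e, measure_union hdisj (by
    apply MeasurableSet.preimage _ (by fun_prop)
    exact MeasurableSet.preimage hm2 (by fun_prop))]
  rw [Real.volume_preimage_mul_left (by norm_num), Real.volume_preimage_mul_left (by norm_num),
    measure_preimage_add_right, measure_preimage_add_right, hI, ← add_mul, ← ENNReal.ofReal_add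
      (by positivity) (by positivity)]
  norm_num

noncomputable def mu (γ : ℕ → ℝ) : Measure ℝ := lamM.map (XX γ)

theorem famMu : Fam mu := by
  refine ⟨?_, ?_, ?_, ?_⟩
  · intro γ hγ
    exact Measure.isProbabilityMeasure_map (XX_meas hγ).aemeasurable
  · intro γ hγ
    rw [mu, Measure.map_apply (XX_meas hγ) measurableSet_Icc.compl]
    have : XX γ ⁻¹' (Set.Icc (-1) 1)ᶜ = ∅ := by
      ext u; simp only [Set.mem_preimage, Set.mem_compl_iff, Set.mem_empty_iff_false, iff_false, not_not]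
      exact XX_mem hγ u
    rw [this, measure_empty]
  · intro γ hγ
    unfold mu
    rw [Measure.map_map (by fun_prop) (XX_meas hγ)]
    have h1 : ((fun x : ℝ => -x) ∘ XX γ) =ᵐ[lamM] (XX γ ∘ fun u => 1 - u) := by
      have hne : ∀ᵐ u ∂lamM, u ≠ 1 / 2 := by
        unfold lamM
        exact ae_restrict_of_ae (Measure.ae_ne volume (1 / 2 : ℝ))
      filter_upwards [hne] with u hu
      simp only [Function.comp]
      rw [XX_eq hγ u, XX_eq hγ (1 - u)]
      have ht : tent (1 - u) = tent u := by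
        unfold tent; rw [← abs_neg]; congr 1; ring
      rw [ht]
      have hs : sg (1 - u) = - sg u := by
        unfold sg
        rcases lt_or_gt_of_ne hu with h | h
        · rw [if_pos h, if_neg (show ¬ (1 - u < 1 / 2) by linarith)]; ring
        · rw [if_neg (show ¬ (u < 1 / 2) by linarith), if_pos (show 1 - u < 1 / 2 by linarith)]
      rw [hs]; ring
    rw [Measure.map_congr h1, ← Measure.map_map (XX_meas hγ) (by fun_prop), lamM_refl.map_eq]
  · intro γ hγ
    unfold mu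
    rw [Measure.map_map (Fm_cont _).measurable (XX_meas hγ)]
    have h1 : Fm (γ 0) ∘ XX γ = XX (shift γ) ∘ tent := by
      funext u
      simp only [Function.comp]
      rw [XX_eq hγ u, Fm_sg_br (hγ 0).1 (hγ 0).2 (XX_mem hγ.shift _)]
    rw [h1, ← Measure.map_map (XX_meas hγ.shift) tent_meas, lamM_tent.map_eq]

end Pool.Agent.CantorAP
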