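import Mathlib
import Pool.Agent.CantorAP.Meas

set_option autoImplicit false
open Filter Topology MeasureTheory

namespace Pool.Agent.CantorAP

noncomputable def Lf (t : ℝ) : ENNReal := if t = 0 then ⊤ else ENNReal.ofReal (-Real.log |t|)
noncomputable def kap (x y : ℝ) : ENNReal := Lf ((x - y) / 2)

theorem Lf_cont : Continuous Lf := by
  rw [continuous_iff_continuousAt]
  intro t
  by_cases ht : t = 0
  · subst ht
    have h1 : Tendsto Lf (𝓝[≠] 0) (𝓝 ⊤) := by
      have h2 : Tendsto (fun t : ℝ => ENNReal.ofReal (-Real.log |t|)) (𝓝[≠] 0) (𝓝 ⊤) := by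
        apply ENNReal.tendsto_ofReal_atTop.comp
        apply tendsto_neg_atBot_atTop.comp
        simpa [Real.log_abs] using Real.tendsto_log_nhdsNE_zero
      refine h2.congr' ?_
      filter_upwards [self_mem_nhdsWithin] with x hx
      have hx' : x ≠ 0 := hx
      rw [Lf, if_neg hx']
    have h3 : Lf 0 = ⊤ := by simp [Lf]
    rw [ContinuousAt, h3, ← pure_sup_nhdsNE]
    exact tendsto_sup.2 ⟨by rw [tendsto_pure_left]; intro s hs; rw [h3]; exact mem_of_mem_nhds hs, h1⟩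
  · have h1 : ContinuousAt (fun t : ℝ => ENNReal.ofReal (-Real.log |t|)) t := by
      apply ENNReal.continuous_ofReal.continuousAt.comp
      exact (continuous_abs.continuousAt.log (abs_ne_zero.2 ht)).neg
    refine h1.congr ?_
    filter_upwards [isOpen_ne.mem_nhds ht] with x hx
    rw [Lf, if_neg hx]

theorem kap_cont : Continuous (fun p : ℝ × ℝ => kap p.1 p.2) := by
  unfold kap
  exact Lf_cont.comp (by fun_prop)

theorem kap_meas : Measurable (Function.uncurry kap) := kap_cont.measurable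

theorem kap_comm (x y : ℝ) : kap x y = kap y x := by
  unfold kap
  rw [show (x - y) / 2 = -((y - x) / 2) by ring]
  unfold Lf; simp

theorem kap_neg (x y : ℝ) : kap (-x) y = kap x (-y) := by
  unfold kap
  rw [show (-x - y) / 2 = -((x - -y) / 2) by ring]
  unfold Lf; simp

theorem Lf_mul {a b g : ℝ} (hg0 : 0 < g) (hg1 : g < 1) (ha : |a| ≤ 1) (hb : |b| ≤ 1)
    (hab : |a * b / g| ≤ 1) : Lf a + Lf b = Lf (a * b / g) + ENNReal.ofReal (-Real.log g) := by
  by_cases ha0 : a = 0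
  · subst ha0; simp [Lf]
  by_cases hb0 : b = 0
  · subst hb0; simp [Lf]
  have hc0 : a * b / g ≠ 0 := div_ne_zero (mul_ne_zero ha0 hb0) hg0.ne'
  rw [Lf, Lf, Lf, if_neg ha0, if_neg hb0, if_neg hc0]
  have e : Real.log |a * b / g| = Real.log |a| + Real.log |b| - Real.log g := by
    rw [abs_div, abs_mul, abs_of_pos hg0, Real.log_div (by positivity) hg0.ne',
      Real.log_mul (by positivity) (by positivity)]
  have l1 : Real.log |a| ≤ 0 := Real.log_nonpos (abs_nonneg _) ha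
  have l2 : Real.log |b| ≤ 0 := Real.log_nonpos (abs_nonneg _) hb
  have l3 : Real.log g ≤ 0 := Real.log_nonpos hg0.le hg1.le
  have l4 : Real.log |a * b / g| ≤ 0 := Real.log_nonpos (abs_nonneg _) hab
  rw [← ENNReal.ofReal_add (by linarith) (by linarith), ← ENNReal.ofReal_add (by linarith) (by linarith)]
  congr 1
  rw [e]; ring

theorem kap_add {g x y : ℝ} (hg0 : 0 < g) (hg1 : g < 1 / 4) (hx : x ∈ Set.Icc (-1 : ℝ) 1)
    (hy : y ∈ Set.Icc (-1 : ℝ) 1) (hFx : Fm g x ∈ Set.Icc (-1 : ℝ) 1)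
    (hFy : Fm g y ∈ Set.Icc (-1 : ℝ) 1) :
    kap x y + kap x (-y) = kap (Fm g x) (Fm g y) + ENNReal.ofReal (-Real.log g) := by
  have e : (Fm g x - Fm g y) / 2 = ((x - y) / 2) * ((x - -y) / 2) / g := by
    unfold Fm; field_simp; ring
  unfold kap
  have hb : |(Fm g x - Fm g y) / 2| ≤ 1 := by
    rw [abs_le]; constructor <;> linarith [hFx.1, hFx.2, hFy.1, hFy.2]
  rw [e] at hb ⊢
  refine Lf_mul hg0 (by linarith) ?_ ?_ hb
  · rw [abs_le]; constructor <;> linarith [hx.1, hx.2, hy.1, hy.2]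
  · rw [abs_le]; constructor <;> linarith [hx.1, hx.2, hy.1, hy.2]

/-- energy -/
noncomputable def En (ν : Measure ℝ) : ENNReal := ∫⁻ x, ∫⁻ y, kap x y ∂ν ∂ν
/-- reflected mutual energy -/
noncomputable def Em (ν : Measure ℝ) : ENNReal := ∫⁻ x, ∫⁻ y, kap x (-y) ∂ν ∂ν

theorem kap_meas' : Measurable (Function.uncurry fun x y : ℝ => kap x (-y)) :=
  (kap_cont.comp (by fun_prop : Continuous fun p : ℝ × ℝ => (p.1, -p.2))).measurable

theorem kap_right (x : ℝ) : Measurable (fun y : ℝ => kap x y) :=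
  (kap_cont.comp (by fun_prop : Continuous fun y : ℝ => (x, y))).measurable

theorem kap_right' (x : ℝ) : Measurable (fun y : ℝ => kap x (-y)) :=
  (kap_cont.comp (by fun_prop : Continuous fun y : ℝ => (x, -y))).measurable

theorem kap_int (ν : Measure ℝ) [SFinite ν] : Measurable (fun x : ℝ => ∫⁻ y, kap x y ∂ν) :=
  Measurable.lintegral_prod_right' (f := fun p : ℝ × ℝ => kap p.1 p.2) kap_cont.measurable

theorem kap_int' (ν : Measure ℝ) [SFinite ν] : Measurable (fun x : ℝ => ∫⁻ y, kap x (-y) ∂ν) :=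
  Measurable.lintegral_prod_right' (f := fun p : ℝ × ℝ => kap p.1 (-p.2))
    (kap_cont.comp (by fun_prop : Continuous fun p : ℝ × ℝ => (p.1, -p.2))).measurable

theorem En_map {f : ℝ → ℝ} (hf : Measurable f) (ν : Measure ℝ) [IsProbabilityMeasure ν] :
    En (ν.map f) = ∫⁻ u, ∫⁻ v, kap (f u) (f v) ∂ν ∂ν := by
  have := Measure.isProbabilityMeasure_map (μ := ν) hf.aemeasurable
  unfold En
  rw [lintegral_map (kap_int _) hf]
  refine lintegral_congr fun x => ?_
  rw [lintegral_map (kap_right _) hf]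

theorem En_add {g : ℝ} (hg0 : 0 < g) (hg1 : g < 1 / 4) (ν : Measure ℝ) [IsProbabilityMeasure ν]
    (h : ∀ᵐ x ∂ν, x ∈ Set.Icc (-1 : ℝ) 1 ∧ Fm g x ∈ Set.Icc (-1 : ℝ) 1) :
    En ν + Em ν = En (ν.map (Fm g)) + ENNReal.ofReal (-Real.log g) := by
  have h1 : En (ν.map (Fm g)) = ∫⁻ x, ∫⁻ y, kap (Fm g x) (Fm g y) ∂ν ∂ν :=
    En_map (Fm_cont g).measurable ν
  have h2 : (∫⁻ x, ∫⁻ y, kap (Fm g x) (Fm g y) ∂ν ∂ν) + ENNReal.ofReal (-Real.log g) =
      ∫⁻ x, ∫⁻ y, (kap (Fm g x) (Fm g y) + ENNReal.ofReal (-Real.log g)) ∂ν ∂ν := by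
    have : ∀ x, (∫⁻ y, (kap (Fm g x) (Fm g y) + ENNReal.ofReal (-Real.log g)) ∂ν) =
        (∫⁻ y, kap (Fm g x) (Fm g y) ∂ν) + ENNReal.ofReal (-Real.log g) := by
      intro x
      rw [lintegral_add_right _ measurable_const]; simp
    simp only [this]
    rw [lintegral_add_right _ measurable_const]; simp
  rw [h1, h2]
  unfold En Em
  rw [← lintegral_add_left (kap_int ν)]
  refine lintegral_congr_ae ?_
  filter_upwards [h] with x hx
  rw [← lintegral_add_left (kap_right x)]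
  refine lintegral_congr_ae ?_
  filter_upwards [h] with y hy
  exact kap_add hg0 hg1 hx.1 hy.1 hx.2 hy.2

theorem Em_symm (ν : Measure ℝ) (h : ν.map (fun x => -x) = ν) : Em ν = En ν := by
  unfold Em En
  refine lintegral_congr fun x => ?_
  conv_rhs => rw [← h]
  rw [lintegral_map (kap_right x) measurable_neg]

/-! ### approximating measures -/

noncomputable def mun (n : ℕ) (γ : ℕ → ℝ) : Measure ℝ := lamM.map (Xn n γ)

instance (n : ℕ) (γ : ℕ → ℝ) : IsProbabilityMeasure (mun n γ) :=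
  Measure.isProbabilityMeasure_map (Xn_meas n γ).aemeasurable

theorem mun_symm (n : ℕ) (γ : ℕ → ℝ) :
    (mun (n + 1) γ).map (fun x => -x) = mun (n + 1) γ := by
  unfold mun
  rw [Measure.map_map (by fun_prop) (Xn_meas _ γ)]
  have h1 : ((fun x : ℝ => -x) ∘ Xn (n + 1) γ) =ᵐ[lamM] (Xn (n + 1) γ ∘ fun u => 1 - u) := by
    have hne : ∀ᵐ u ∂lamM, u ≠ 1 / 2 := by
      unfold lamM
      exact ae_restrict_of_ae (Measure.ae_ne volume (1 / 2 : ℝ))
    filter_upwards [hne] with u hu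
    simp only [Function.comp, Xn]
    have ht : tent (1 - u) = tent u := by
      unfold tent; rw [← abs_neg]; congr 1; ring
    rw [ht]
    have hs : sg (1 - u) = - sg u := by
      unfold sg
      rcases lt_or_gt_of_ne hu with h | h
      · rw [if_pos h, if_neg (show ¬ (1 - u < 1 / 2) by linarith)]; ring
      · rw [if_neg (show ¬ (u < 1 / 2) by linarith), if_pos (show 1 - u < 1 / 2 by linarith)]
    rw [hs]; ring
  rw [Measure.map_congr h1, ← Measure.map_map (Xn_meas _ γ) (by fun_prop), lamM_refl.map_eq]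

theorem mun_push (n : ℕ) {γ : ℕ → ℝ} (hγ : Adm γ) :
    (mun (n + 1) γ).map (Fm (γ 0)) = mun n (shift γ) := by
  unfold mun
  rw [Measure.map_map (Fm_cont _).measurable (Xn_meas _ γ)]
  have h1 : Fm (γ 0) ∘ Xn (n + 1) γ = Xn n (shift γ) ∘ tent := by
    funext u
    simp only [Function.comp, Xn]
    rw [Fm_sg_br (hγ 0).1 (hγ 0).2 (Xn_mem n _ hγ.shift _)]
  rw [h1, ← Measure.map_map (Xn_meas _ _) tent_meas, lamM_tent.map_eq]

theorem mun_rec (n : ℕ) {γ : ℕ → ℝ} (hγ : Adm γ) :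
    2 * En (mun (n + 1) γ) = En (mun n (shift γ)) + ENNReal.ofReal (-Real.log (γ 0)) := by
  have h : ∀ᵐ x ∂(mun (n + 1) γ), x ∈ Set.Icc (-1 : ℝ) 1 ∧ Fm (γ 0) x ∈ Set.Icc (-1 : ℝ) 1 := by
    unfold mun
    rw [ae_map_iff (Xn_meas _ γ).aemeasurable]
    · refine Eventually.of_forall fun u => ⟨Xn_mem _ γ hγ u, ?_⟩
      simp only [Xn]
      rw [Fm_sg_br (hγ 0).1 (hγ 0).2 (Xn_mem n _ hγ.shift _)]
      exact Xn_mem n _ hγ.shift _
    · exact measurableSet_Icc.inter ((Fm_cont _).measurable measurableSet_Icc)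
  have := En_add (hγ 0).1 (hγ 0).2 (mun (n + 1) γ) h
  rw [Em_symm _ (mun_symm n γ), mun_push n hγ] at this
  rw [two_mul]; exact this

theorem En_zero (γ : ℕ → ℝ) : En (mun 0 γ) < ⊤ := by
  have h1 : En (mun 0 γ) = ∫⁻ u, ∫⁻ v, kap (X0 u) (X0 v) ∂lamM ∂lamM :=
    En_map (Xn_meas 0 γ) lamM
  rw [h1]
  set f : ℝ → ENNReal := (Set.Icc (-1 : ℝ) 1).indicator Lf with hf
  have hfm : Measurable f := Lf_cont.measurable.indicator measurableSet_Icc
  have hC : ∫⁻ t, f t < ⊤ := by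
    rw [hf, lintegral_indicator measurableSet_Icc]
    have hi : IntegrableOn Real.log (Set.Icc (-1) 1) volume := by
      rw [integrableOn_Icc_iff_integrableOn_Ioc]
      exact (intervalIntegrable_iff_integrableOn_Ioc_of_le (by norm_num)).1
        intervalIntegral.intervalIntegrable_log'
    refine lt_of_le_of_lt ?_ hi.2
    refine lintegral_mono_ae ?_
    have hne : ∀ᵐ t ∂(volume.restrict (Set.Icc (-1 : ℝ) 1)), t ≠ 0 :=
      ae_restrict_of_ae (Measure.ae_ne volume (0 : ℝ))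
    filter_upwards [hne] with t ht
    rw [Lf, if_neg ht, Real.log_abs]
    rw [← ofReal_norm]
    exact ENNReal.ofReal_le_ofReal (by rw [Real.norm_eq_abs]; exact neg_le_abs _)
  have h2 : ∀ᵐ u ∂lamM, (∫⁻ v, kap (X0 u) (X0 v) ∂lamM) ≤ ∫⁻ t, f t := by
    have hu : ∀ᵐ u ∂lamM, u ∈ Set.Icc (0 : ℝ) 1 := by
      unfold lamM; exact ae_restrict_mem measurableSet_Icc
    filter_upwards [hu] with u hu'
    have e0 : ∀ w ∈ Set.Icc (0 : ℝ) 1, X0 w = 2 * w - 1 := by
      intro w hw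
      unfold X0
      rw [min_eq_right (by linarith [hw.2]), max_eq_right (by linarith [hw.1])]
    calc (∫⁻ v, kap (X0 u) (X0 v) ∂lamM) ≤ ∫⁻ v, f (u - v) ∂lamM := by
          refine lintegral_mono_ae ?_
          filter_upwards [hu] with v hv
          rw [e0 u hu', e0 v hv, kap, hf, Set.indicator_of_mem]
          · rw [show (2 * u - 1 - (2 * v - 1)) / 2 = u - v by ring]
          · constructor <;> linarith [hu'.1, hu'.2, hv.1, hv.2]
      _ ≤ ∫⁻ v, f (u - v) := by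
          unfold lamM; exact lintegral_mono' Measure.restrict_le_self le_rfl
      _ = ∫⁻ t, f t := lintegral_sub_left_eq_self f u
  calc (∫⁻ u, ∫⁻ v, kap (X0 u) (X0 v) ∂lamM ∂lamM) ≤ ∫⁻ _, (∫⁻ t, f t) ∂lamM := lintegral_mono_ae h2
    _ = ∫⁻ t, f t := by simp
    _ < ⊤ := hC

/-- the equilibrium energy -/
noncomputable def EE (γ : ℕ → ℝ) : ENNReal :=
  ∑' k : ℕ, (1 / 2 : ENNReal) ^ (k + 1) * ENNReal.ofReal (-Real.log (γ k))

noncomputable def cE : ENNReal := En (mun 0 (fun _ => 0))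

theorem En_zero_eq (γ : ℕ → ℝ) : En (mun 0 γ) = cE := rfl

theorem two_half : (2 : ENNReal) * (1 / 2) = 1 := by
  rw [one_div]; exact ENNReal.mul_inv_cancel (by norm_num) (by norm_num)

theorem EE_rec (γ : ℕ → ℝ) : 2 * EE γ = EE (shift γ) + ENNReal.ofReal (-Real.log (γ 0)) := by
  unfold EE
  rw [tsum_eq_zero_add' ENNReal.summable, mul_add, ← ENNReal.tsum_mul_left, add_comm]
  congr 1
  · refine tsum_congr fun k => ?_
    rw [pow_succ' _ (k + 1), ← mul_assoc, ← mul_assoc, two_half, one_mul]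
    rfl
  · rw [zero_add, pow_one, ← mul_assoc, two_half, one_mul]

theorem En_mun_le (n : ℕ) : ∀ γ, Adm γ → En (mun n γ) ≤ EE γ + (1 / 2) ^ n * cE := by
  induction n with
  | zero => intro γ _; rw [En_zero_eq]; simp
  | succ n ih =>
    intro γ hγ
    have h1 := mun_rec n hγ
    have h2 := ih _ hγ.shift
    have h3 : 2 * En (mun (n + 1) γ) ≤ 2 * (EE γ + (1 / 2) ^ (n + 1) * cE) := by
      rw [h1, mul_add, EE_rec, pow_succ' _ n, ← mul_assoc 2, ← mul_assoc 2, two_half, one_mul]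
      calc En (mun n (shift γ)) + ENNReal.ofReal (-Real.log (γ 0)) ≤
            EE (shift γ) + (1 / 2) ^ n * cE + ENNReal.ofReal (-Real.log (γ 0)) := by gcongr
        _ = _ := by ring
    exact (ENNReal.mul_le_mul_iff_right (by norm_num) (by norm_num)).1 h3

theorem En_mu_le {γ : ℕ → ℝ} (hγ : Adm γ) : En (mu γ) ≤ EE γ := by
  have h1 : En (mu γ) = ∫⁻ u, ∫⁻ v, kap (XX γ u) (XX γ v) ∂lamM ∂lamM := En_map (XX_meas hγ) lamM
  have h2 : ∀ n, En (mun n γ) = ∫⁻ u, ∫⁻ v, kap (Xn n γ u) (Xn n γ v) ∂lamM ∂lamM := fun n =>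
    En_map (Xn_meas n γ) lamM
  have hmeas : ∀ n, Measurable (Function.uncurry fun u v : ℝ => kap (Xn n γ u) (Xn n γ v)) := fun n =>
    kap_cont.measurable.comp (((Xn_meas n γ).comp measurable_fst).prodMk ((Xn_meas n γ).comp measurable_snd))
  have h3 : ∀ u v, kap (XX γ u) (XX γ v) = liminf (fun n => kap (Xn n γ u) (Xn n γ v)) atTop := by
    intro u v
    have : Tendsto (fun n => kap (Xn n γ u) (Xn n γ v)) atTop (𝓝 (kap (XX γ u) (XX γ v))) :=
      (kap_cont.tendsto (XX γ u, XX γ v)).comp ((XX_tendsto hγ u).prodMk_nhds (XX_tendsto hγ v))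
    exact this.liminf_eq.symm
  calc En (mu γ) = ∫⁻ u, ∫⁻ v, liminf (fun n => kap (Xn n γ u) (Xn n γ v)) atTop ∂lamM ∂lamM := by
        rw [h1]; simp only [h3]
    _ ≤ ∫⁻ u, liminf (fun n => ∫⁻ v, kap (Xn n γ u) (Xn n γ v) ∂lamM) atTop ∂lamM :=
        lintegral_mono fun u => lintegral_liminf_le fun n => (hmeas n).of_uncurry_left
    _ ≤ liminf (fun n => ∫⁻ u, ∫⁻ v, kap (Xn n γ u) (Xn n γ v) ∂lamM ∂lamM) atTop :=
        lintegral_liminf_le fun n => (hmeas n).lintegral_prod_right'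
    _ = liminf (fun n => En (mun n γ)) atTop := by simp only [h2]
    _ ≤ liminf (fun n => EE γ + (1 / 2) ^ n * cE) atTop := 
        liminf_le_liminf (Eventually.of_forall fun n => En_mun_le n γ hγ)
    _ = EE γ := by
        have hc : cE ≠ ⊤ := (En_zero _).ne
        have : Tendsto (fun n : ℕ => EE γ + (1 / 2 : ENNReal) ^ n * cE) atTop (𝓝 (EE γ + 0 * cE)) := by
          refine tendsto_const_nhds.add (ENNReal.Tendsto.mul_const ?_ (Or.inr hc))
          exact ENNReal.tendsto_pow_atTop_nhds_zero_of_lt_one (by 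
            rw [one_div]; exact ENNReal.inv_lt_one.2 (by norm_num))
        rw [this.liminf_eq]; simp

end Pool.Agent.CantorAP
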