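import Mathlib
import Pool.Agent.CantorAP.Energy

set_option autoImplicit false
open Filter Topology MeasureTheory

namespace Pool.Agent.CantorAP

noncomputable def psi (k : ℕ) (u s : ℝ) : ENNReal :=
  if u < s then ENNReal.ofReal (s⁻¹ ^ (2 * k + 1)) else 0
noncomputable def wt (k : ℕ) (u : ℝ) : ENNReal :=
  if 0 < u then ENNReal.ofReal (4 * u ^ (4 * k + 1)) else 0
noncomputable def ser (s t : ℝ) : ENNReal :=
  ∑' k : ℕ, ENNReal.ofReal (2 / (2 * k + 1) * (min s t / max s t) ^ (2 * k + 1))
noncomputable def ell (s t : ℝ) : ENNReal :=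
  if s = t then ⊤ else ENNReal.ofReal (Real.log ((s + t) / |s - t|))

theorem psi_meas (k : ℕ) : Measurable (fun p : ℝ × ℝ => psi k p.1 p.2) := by
  unfold psi
  exact Measurable.ite (measurableSet_lt measurable_fst measurable_snd) (by fun_prop) measurable_const

theorem wt_meas (k : ℕ) : Measurable (wt k) := by
  unfold wt
  exact Measurable.ite measurableSet_Ioi (by fun_prop) measurable_const

theorem int_psi (k : ℕ) {s t : ℝ} (hs : 0 < s) (ht : 0 < t) :
    ∫⁻ u, wt k u * (psi k u s * psi k u t) =
      ENNReal.ofReal (2 / (2 * k + 1) * (min s t / max s t) ^ (2 * k + 1)) := by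
  have hm : 0 < min s t := lt_min hs ht
  have e1 : (fun u => wt k u * (psi k u s * psi k u t)) =
      (Set.Ioo 0 (min s t)).indicator (fun u => ENNReal.ofReal
        (4 * u ^ (4 * k + 1) * (s⁻¹ ^ (2 * k + 1) * t⁻¹ ^ (2 * k + 1)))) := by
    funext u
    unfold wt psi
    by_cases h0 : 0 < u
    · by_cases h1 : u < s
      · by_cases h2 : u < t
        · rw [Set.indicator_of_mem (show u ∈ Set.Ioo 0 (min s t) from ⟨h0, lt_min h1 h2⟩), if_pos h0, if_pos h1, if_pos h2,
            ← ENNReal.ofReal_mul (by positivity), ← ENNReal.ofReal_mul (by positivity)]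
        · rw [Set.indicator_of_notMem (fun h => h2 (lt_of_lt_of_le h.2 (min_le_right _ _))),
            if_neg h2, mul_zero, mul_zero]
      · rw [Set.indicator_of_notMem (fun h => h1 (lt_of_lt_of_le h.2 (min_le_left _ _))),
          if_neg h1, zero_mul, mul_zero]
    · rw [Set.indicator_of_notMem (fun h => h0 h.1), if_neg h0, zero_mul]
  rw [e1, lintegral_indicator measurableSet_Ioo, restrict_Ioo_eq_restrict_Ioc]
  rw [← ofReal_integral_eq_lintegral_ofReal]
  · congr 1
    rw [← intervalIntegral.integral_of_le hm.le, intervalIntegral.integral_mul_const,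
      intervalIntegral.integral_const_mul, integral_pow]
    have hM : 0 < max s t := lt_of_lt_of_le hs (le_max_left _ _)
    have hst : s * t = min s t * max s t := (min_mul_max s t).symm
    rw [← mul_pow, ← mul_inv, hst, div_pow, mul_inv, mul_pow, inv_pow, inv_pow]
    push_cast
    field_simp
    ring
  · apply Continuous.integrableOn_Ioc; fun_prop
  · filter_upwards [ae_restrict_mem measurableSet_Ioc] with u hu
    have := hu.1
    positivity

theorem ser_top (s : ℝ) (hs : 0 < s) : ser s s = ⊤ := by
  by_contra hne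
  unfold ser at hne
  have h1 := ENNReal.summable_toReal hne
  have h2 : ∀ k : ℕ, (ENNReal.ofReal (2 / (2 * k + 1) * (min s s / max s s) ^ (2 * k + 1))).toReal =
      2 / (2 * k + 1) := by
    intro k
    rw [ENNReal.toReal_ofReal (by
      rw [min_self, max_self, div_self hs.ne', one_pow]; positivity)]
    rw [min_self, max_self, div_self hs.ne', one_pow, mul_one]
  simp only [h2] at h1
  have h3 : Summable (fun k : ℕ => 1 / ((k : ℝ) + 1)) := by
    refine Summable.of_nonneg_of_le (fun k => by positivity) (fun k => ?_) h1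
    rw [div_le_div_iff₀ (by positivity) (by positivity)]
    have : (0 : ℝ) ≤ k := Nat.cast_nonneg k
    linarith
  have h4 : Summable (fun k : ℕ => 1 / (k : ℝ)) := by
    rw [← summable_nat_add_iff 1]
    simpa using h3
  exact Real.not_summable_one_div_natCast h4

theorem ser_eq {s t : ℝ} (hs : 0 < s) (ht : 0 < t) : ser s t = ell s t := by
  unfold ell
  by_cases h : s = t
  · subst h; rw [if_pos rfl]; exact ser_top s hs
  · rw [if_neg h]
    unfold ser
    have hM : 0 < max s t := lt_of_lt_of_le hs (le_max_left _ _)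
    have hm : 0 < min s t := lt_min hs ht
    have hlt : min s t < max s t := min_lt_max.2 h
    set r := min s t / max s t with hr
    have hr0 : 0 < r := div_pos hm hM
    have hr1 : r < 1 := (div_lt_one hM).2 hlt
    have hsum := Real.hasSum_log_sub_log_of_abs_lt_one (x := r) (by rw [abs_of_pos hr0]; exact hr1)
    have e : ∀ k : ℕ, (2 : ℝ) * (1 / (2 * k + 1)) * r ^ (2 * k + 1) = 2 / (2 * k + 1) * r ^ (2 * k + 1) := by
      intro k; ring
    simp only [e] at hsum
    rw [← ENNReal.ofReal_tsum_of_nonneg (fun k => by positivity) hsum.summable, hsum.tsum_eq]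
    congr 1
    rw [← Real.log_div (by linarith) (by linarith)]
    congr 1
    rw [hr]
    have h1 : 1 + min s t / max s t = (s + t) / max s t := by
      rw [← min_add_max s t]; field_simp; ring
    have h2 : 1 - min s t / max s t = |s - t| / max s t := by
      rw [← max_sub_min_eq_abs, max_comm t s, min_comm t s]; field_simp
    rw [h1, h2]
    field_simp

noncomputable def Pk (k : ℕ) (α : Measure ℝ) (u : ℝ) : ENNReal := ∫⁻ s, psi k u s ∂α

theorem Pk_meas (k : ℕ) (α : Measure ℝ) [SFinite α] : Measurable (Pk k α) :=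
  Measurable.lintegral_prod_right' (f := fun p : ℝ × ℝ => psi k p.1 p.2) (psi_meas k)

theorem bil (α β : Measure ℝ) [IsFiniteMeasure α] [IsFiniteMeasure β]
    (hα : ∀ᵐ x ∂α, 0 < x) (hβ : ∀ᵐ x ∂β, 0 < x) :
    ∫⁻ x, ∫⁻ y, ell x y ∂β ∂α = ∑' k : ℕ, ∫⁻ u, wt k u * (Pk k α u * Pk k β u) := by
  have hm1 : ∀ k x, Measurable (fun p : ℝ × ℝ => wt k p.1 * (psi k p.1 x * psi k p.1 p.2)) := by
    intro k x
    refine ((wt_meas k).comp measurable_fst).mul (Measurable.mul ?_ (psi_meas k))
    exact (psi_meas k).comp (measurable_fst.prodMk measurable_const)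
  have h1 : ∀ x, 0 < x → ∫⁻ y, ell x y ∂β = ∑' k : ℕ, ∫⁻ u, wt k u * (psi k u x * Pk k β u) := by
    intro x hx
    calc ∫⁻ y, ell x y ∂β = ∫⁻ y, (∑' k : ℕ, ∫⁻ u, wt k u * (psi k u x * psi k u y)) ∂β := by
          refine lintegral_congr_ae ?_
          filter_upwards [hβ] with y hy
          rw [← ser_eq hx hy, ser]
          exact tsum_congr fun k => (int_psi k hx hy).symm
      _ = ∑' k : ℕ, ∫⁻ y, (∫⁻ u, wt k u * (psi k u x * psi k u y)) ∂β := by
          refine lintegral_tsum fun k => ?_
          exact (Measurable.lintegral_prod_left' (hm1 k x)).aemeasurable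
      _ = ∑' k : ℕ, ∫⁻ u, wt k u * (psi k u x * Pk k β u) := by
          refine tsum_congr fun k => ?_
          rw [lintegral_lintegral_swap]
          · refine lintegral_congr fun u => ?_
            rw [lintegral_const_mul, lintegral_const_mul]
            · rfl
            · exact (psi_meas k).comp (measurable_const.prodMk measurable_id)
            · exact ((psi_meas k).comp (measurable_const.prodMk measurable_id)).const_mul _
          · exact ((hm1 k x).comp measurable_swap).aemeasurable
  have hm2 : ∀ k, Measurable (fun p : ℝ × ℝ => wt k p.1 * (psi k p.1 p.2 * Pk k β p.1)) := by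
    intro k
    exact ((wt_meas k).comp measurable_fst).mul ((psi_meas k).mul ((Pk_meas k β).comp measurable_fst))
  calc ∫⁻ x, ∫⁻ y, ell x y ∂β ∂α = ∫⁻ x, (∑' k : ℕ, ∫⁻ u, wt k u * (psi k u x * Pk k β u)) ∂α := by
        refine lintegral_congr_ae ?_
        filter_upwards [hα] with x hx
        exact h1 x hx
    _ = ∑' k : ℕ, ∫⁻ x, (∫⁻ u, wt k u * (psi k u x * Pk k β u)) ∂α := by
        refine lintegral_tsum fun k => ?_
        exact (Measurable.lintegral_prod_left' (hm2 k)).aemeasurable
    _ = ∑' k : ℕ, ∫⁻ u, wt k u * (Pk k α u * Pk k β u) := by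
        refine tsum_congr fun k => ?_
        rw [lintegral_lintegral_swap]
        · refine lintegral_congr fun u => ?_
          rw [lintegral_const_mul, lintegral_mul_const]
          · rfl
          · exact (psi_meas k).comp (measurable_const.prodMk measurable_id)
          · exact ((psi_meas k).comp (measurable_const.prodMk measurable_id)).mul_const _
        · exact ((hm2 k).comp measurable_swap).aemeasurable

theorem two_mul_ennreal (a b : ENNReal) : a * b + b * a ≤ a * a + b * b := by
  rcases le_total a b with h | h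
  · obtain ⟨c, rfl⟩ := le_iff_exists_add.1 h
    calc a * (a + c) + (a + c) * a ≤ a * (a + c) + (a + c) * a + c * c := le_self_add
      _ = a * a + (a + c) * (a + c) := by ring
  · obtain ⟨c, rfl⟩ := le_iff_exists_add.1 h
    calc (b + c) * b + b * (b + c) ≤ (b + c) * b + b * (b + c) + c * c := le_self_add
      _ = (b + c) * (b + c) + b * b := by ring

theorem ell_pd (α β : Measure ℝ) [IsFiniteMeasure α] [IsFiniteMeasure β]
    (hα : ∀ᵐ x ∂α, 0 < x) (hβ : ∀ᵐ x ∂β, 0 < x) :
    (∫⁻ x, ∫⁻ y, ell x y ∂β ∂α) + ∫⁻ x, ∫⁻ y, ell x y ∂α ∂β ≤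
      (∫⁻ x, ∫⁻ y, ell x y ∂α ∂α) + ∫⁻ x, ∫⁻ y, ell x y ∂β ∂β := by
  rw [bil α β hα hβ, bil β α hβ hα, bil α α hα hα, bil β β hβ hβ, ← ENNReal.tsum_add,
    ← ENNReal.tsum_add]
  refine ENNReal.tsum_le_tsum fun k => ?_
  have hm : ∀ μ ν : Measure ℝ, [IsFiniteMeasure μ] → [IsFiniteMeasure ν] →
      Measurable (fun u => wt k u * (Pk k μ u * Pk k ν u)) := by
    intro μ ν _ _
    exact (wt_meas k).mul ((Pk_meas k μ).mul (Pk_meas k ν))
  rw [← lintegral_add_left (hm α β), ← lintegral_add_left (hm α α)]
  refine lintegral_mono fun u => ?_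
  show wt k u * (Pk k α u * Pk k β u) + wt k u * (Pk k β u * Pk k α u) ≤
    wt k u * (Pk k α u * Pk k α u) + wt k u * (Pk k β u * Pk k β u)
  rw [← mul_add, ← mul_add]
  exact mul_le_mul_right (two_mul_ennreal _ _) _

end Pool.Agent.CantorAP
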