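import Mathlib
import Pool.Agent.CantorAP.PD

set_option autoImplicit false
open Filter Topology MeasureTheory

namespace Pool.Agent.CantorAP

noncomputable def posP (ν : Measure ℝ) : Measure ℝ := ν.restrict (Set.Ioi 0)
noncomputable def negP (ν : Measure ℝ) : Measure ℝ := (ν.restrict (Set.Iio 0)).map (fun x => -x)

theorem lint_split (ν : Measure ℝ) (h0 : ∀ᵐ x ∂ν, x ≠ 0) {G : ℝ → ENNReal} (hG : Measurable G) :
    ∫⁻ x, G x ∂ν = (∫⁻ x, G x ∂(posP ν)) + ∫⁻ x, G (-x) ∂(negP ν) := by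
  unfold posP negP
  rw [lintegral_map (f := fun x => G (-x)) (g := fun x => -x) (hG.comp measurable_neg) measurable_neg]
  simp only [neg_neg]
  rw [← lintegral_add_compl G measurableSet_Ioi]
  congr 1
  rw [Set.compl_Ioi]
  have : ν.restrict (Set.Iic 0) = ν.restrict (Set.Iio 0) := by
    apply Measure.restrict_congr_set
    filter_upwards [h0] with x hx
    apply propext
    show x ≤ 0 ↔ x < 0
    exact ⟨fun h => lt_of_le_of_ne h hx, le_of_lt⟩
  rw [this]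

theorem kap_ell {x y : ℝ} (hx : 0 < x) (hx1 : x ≤ 1) (hy : 0 < y) (hy1 : y ≤ 1) :
    kap x y = kap x (-y) + ell x y := by
  unfold kap ell Lf
  by_cases h : x = y
  · subst h; simp
  · have h1 : (x - y) / 2 ≠ 0 := by
      intro h2; apply h; linarith
    have h2' : 0 < (x - -y) / 2 := by linarith
    have h2 : (x - -y) / 2 ≠ 0 := h2'.ne'
    rw [if_neg h1, if_neg h2, if_neg h]
    have h3 : 0 < |x - y| := abs_pos.2 (sub_ne_zero.2 h)
    have h4 : |x - y| ≤ x + y := by rw [abs_le]; constructor <;> linarith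
    have e1 : |(x - y) / 2| = |x - y| / 2 := by rw [abs_div]; norm_num
    have e2 : |(x - -y) / 2| = (x + y) / 2 := by
      rw [abs_of_pos h2']; ring
    rw [e1, e2, ← ENNReal.ofReal_add]
    · congr 1
      rw [Real.log_div h3.ne' (by norm_num), Real.log_div (by positivity) (by norm_num),
        Real.log_div (by positivity) h3.ne']
      ring
    · have := Real.log_nonpos (by positivity : (0 : ℝ) ≤ (x + y) / 2) (by linarith)
      linarith
    · apply Real.log_nonneg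
      rw [le_div_iff₀ h3]; linarith

theorem ell_meas : Measurable (fun p : ℝ × ℝ => ell p.1 p.2) := by
  unfold ell
  exact Measurable.ite (measurableSet_eq_fun measurable_fst measurable_snd) measurable_const
    (by fun_prop)

/-- bilinear expansion -/
theorem En_split (ν : Measure ℝ) [IsProbabilityMeasure ν] (h0 : ∀ᵐ x ∂ν, x ≠ 0)
    (k : ℝ → ℝ → ENNReal) (hk : Measurable (fun p : ℝ × ℝ => k p.1 p.2)) :
    ∫⁻ x, ∫⁻ y, k x y ∂ν ∂ν =
      ((∫⁻ x, ∫⁻ y, k x y ∂(posP ν) ∂(posP ν)) + ∫⁻ x, ∫⁻ y, k x (-y) ∂(negP ν) ∂(posP ν)) +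
      ((∫⁻ x, ∫⁻ y, k (-x) y ∂(posP ν) ∂(negP ν)) + ∫⁻ x, ∫⁻ y, k (-x) (-y) ∂(negP ν) ∂(negP ν)) := by
  have : IsFiniteMeasure (posP ν) := by unfold posP; infer_instance
  have : IsFiniteMeasure (negP ν) := by unfold negP; infer_instance
  have hk2 : ∀ x, Measurable (fun y => k x y) := fun x =>
    hk.comp (measurable_const.prodMk measurable_id)
  have e1 : ∀ x, ∫⁻ y, k x y ∂ν = (∫⁻ y, k x y ∂(posP ν)) + ∫⁻ y, k x (-y) ∂(negP ν) := fun x =>
    lint_split ν h0 (hk2 x)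
  have m1 : Measurable (fun x => ∫⁻ y, k x y ∂(posP ν)) :=
    Measurable.lintegral_prod_right' (f := fun p : ℝ × ℝ => k p.1 p.2) hk
  have m2 : Measurable (fun x => ∫⁻ y, k x (-y) ∂(negP ν)) :=
    Measurable.lintegral_prod_right' (f := fun p : ℝ × ℝ => k p.1 (-p.2))
      (hk.comp (measurable_fst.prodMk measurable_snd.neg))
  simp only [e1]
  rw [lint_split ν h0 (G := fun x => (∫⁻ y, k x y ∂(posP ν)) + ∫⁻ y, k x (-y) ∂(negP ν)) (m1.add m2),
    lintegral_add_left m1, lintegral_add_left (f := fun x => ∫⁻ y, k (-x) y ∂(posP ν)) (m1.comp measurable_neg)]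

theorem Em_le_En (ν : Measure ℝ) [IsProbabilityMeasure ν]
    (h : ∀ᵐ x ∂ν, x ≠ 0 ∧ x ∈ Set.Icc (-1 : ℝ) 1) : Em ν ≤ En ν := by
  have h0 : ∀ᵐ x ∂ν, x ≠ 0 := h.mono fun x hx => hx.1
  have i1 : IsFiniteMeasure (posP ν) := by unfold posP; infer_instance
  have i2 : IsFiniteMeasure (negP ν) := by unfold negP; infer_instance
  have hα : ∀ᵐ x ∂(posP ν), 0 < x ∧ x ≤ 1 := by
    unfold posP
    filter_upwards [ae_restrict_mem measurableSet_Ioi, ae_restrict_of_ae h] with x hx hx2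
    exact ⟨hx, hx2.2.2⟩
  have hβ : ∀ᵐ x ∂(negP ν), 0 < x ∧ x ≤ 1 := by
    unfold negP
    rw [ae_map_iff measurable_neg.aemeasurable]
    · filter_upwards [ae_restrict_mem measurableSet_Iio, ae_restrict_of_ae h] with x hx hx2
      have : x < 0 := hx
      exact ⟨by linarith, by linarith [hx2.2.1]⟩
    · exact measurableSet_Ioi.inter measurableSet_Iic
  have hα' : ∀ᵐ x ∂(posP ν), 0 < x := hα.mono fun x hx => hx.1
  have hβ' : ∀ᵐ x ∂(negP ν), 0 < x := hβ.mono fun x hx => hx.1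
  have key : ∀ α β : Measure ℝ, IsFiniteMeasure α → IsFiniteMeasure β →
      (∀ᵐ x ∂α, 0 < x ∧ x ≤ 1) → (∀ᵐ x ∂β, 0 < x ∧ x ≤ 1) →
      ∫⁻ x, ∫⁻ y, kap x y ∂β ∂α =
        (∫⁻ x, ∫⁻ y, kap x (-y) ∂β ∂α) + ∫⁻ x, ∫⁻ y, ell x y ∂β ∂α := by
    intro α β _ _ ha hb
    have m : Measurable (fun x : ℝ => ∫⁻ y, kap x (-y) ∂β) := kap_int' β
    rw [← lintegral_add_left m]
    refine lintegral_congr_ae ?_
    filter_upwards [ha] with x hx
    rw [← lintegral_add_left (kap_right' x)]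
    refine lintegral_congr_ae ?_
    filter_upwards [hb] with y hy
    exact kap_ell hx.1 hx.2 hy.1 hy.2
  have hmk : Measurable (fun p : ℝ × ℝ => kap p.1 p.2) := kap_cont.measurable
  have hmk' : Measurable (fun p : ℝ × ℝ => kap p.1 (-p.2)) :=
    (kap_cont.comp (by fun_prop : Continuous fun p : ℝ × ℝ => (p.1, -p.2))).measurable
  unfold Em En
  rw [En_split ν h0 kap hmk, En_split ν h0 (fun x y => kap x (-y)) hmk']
  simp only [neg_neg, kap_neg]
  rw [key (posP ν) (posP ν) i1 i1 hα hα, key (negP ν) (negP ν) i2 i2 hβ hβ,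
    key (posP ν) (negP ν) i1 i2 hα hβ, key (negP ν) (posP ν) i2 i1 hβ hα]
  have hpd := ell_pd (posP ν) (negP ν) hα' hβ'
  set a := ∫⁻ x, ∫⁻ y, kap x (-y) ∂(posP ν) ∂(posP ν)
  set b := ∫⁻ x, ∫⁻ y, kap x (-y) ∂(negP ν) ∂(posP ν)
  set c := ∫⁻ x, ∫⁻ y, kap x (-y) ∂(posP ν) ∂(negP ν)
  set d := ∫⁻ x, ∫⁻ y, kap x (-y) ∂(negP ν) ∂(negP ν)
  set e1 := ∫⁻ x, ∫⁻ y, ell x y ∂(negP ν) ∂(posP ν)
  set e2 := ∫⁻ x, ∫⁻ y, ell x y ∂(posP ν) ∂(negP ν)
  set e3 := ∫⁻ x, ∫⁻ y, ell x y ∂(posP ν) ∂(posP ν)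
  set e4 := ∫⁻ x, ∫⁻ y, ell x y ∂(negP ν) ∂(negP ν)
  calc (a + (b + e1)) + ((c + e2) + d) = (a + b + c + d) + (e1 + e2) := by ring
    _ ≤ (a + b + c + d) + (e3 + e4) := by gcongr
    _ = ((a + e3) + b) + (c + (d + e4)) := by ring

/-- orbits -/
noncomputable def itF : (ℕ → ℝ) → ℕ → ℝ → ℝ
  | _, 0, w => w
  | γ, s + 1, w => itF (shift γ) s (Fm (γ 0) w)

def Kset (γ : ℕ → ℝ) : Set ℝ := {w | ∀ s, itF γ s w ∈ Set.Icc (-1 : ℝ) 1}

theorem itF_cont (s : ℕ) : ∀ γ, Continuous (itF γ s) := by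
  induction s with
  | zero => intro γ; exact continuous_id
  | succ s ih => intro γ; exact (ih (shift γ)).comp (Fm_cont _)

theorem Kset_meas (γ : ℕ → ℝ) : MeasurableSet (Kset γ) := by
  have : Kset γ = ⋂ s, (itF γ s) ⁻¹' Set.Icc (-1) 1 := by
    ext w; simp [Kset]
  rw [this]
  exact MeasurableSet.iInter fun s => (itF_cont s γ).measurable measurableSet_Icc

theorem partial_le (n : ℕ) : ∀ γ, Adm γ → ∀ ν : Measure ℝ, IsProbabilityMeasure ν →
    (∀ᵐ w ∂ν, w ∈ Kset γ) →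
    ∑ k ∈ Finset.range n, (1 / 2 : ENNReal) ^ (k + 1) * ENNReal.ofReal (-Real.log (γ k)) ≤ En ν := by
  induction n with
  | zero => intro γ _ ν _ _; simp
  | succ n ih =>
    intro γ hγ ν _ hK
    have hg := hγ 0
    have h1 : ∀ᵐ x ∂ν, x ∈ Set.Icc (-1 : ℝ) 1 ∧ Fm (γ 0) x ∈ Set.Icc (-1 : ℝ) 1 := by
      filter_upwards [hK] with x hx
      exact ⟨hx 0, hx 1⟩
    have h2 : ∀ᵐ x ∂ν, x ≠ 0 ∧ x ∈ Set.Icc (-1 : ℝ) 1 := by
      filter_upwards [h1] with x hx
      refine ⟨?_, hx.1⟩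
      rintro rfl
      have h3 := hx.2.1
      unfold Fm at h3
      rw [le_div_iff₀ (by linarith)] at h3
      norm_num at h3
      linarith [hg.2]
    have h3 : IsProbabilityMeasure (ν.map (Fm (γ 0))) :=
      Measure.isProbabilityMeasure_map (Fm_cont _).aemeasurable
    have h4 := ih (shift γ) hγ.shift (ν.map (Fm (γ 0))) h3 (by
      refine (ae_map_iff (p := fun w => w ∈ Kset (shift γ)) (Fm_cont _).aemeasurable (Kset_meas _)).2 ?_
      filter_upwards [hK] with x hx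
      intro s
      exact hx (s + 1))
    have h5 := En_add hg.1 hg.2 ν h1
    have h6 := Em_le_En ν h2
    have h7 : 2 * ∑ k ∈ Finset.range (n + 1), (1 / 2 : ENNReal) ^ (k + 1) *
        ENNReal.ofReal (-Real.log (γ k)) ≤ 2 * En ν := by
      rw [Finset.sum_range_succ', mul_add, Finset.mul_sum]
      have e : ∀ k, 2 * ((1 / 2 : ENNReal) ^ (k + 1 + 1) * ENNReal.ofReal (-Real.log (γ (k + 1)))) =
          (1 / 2 : ENNReal) ^ (k + 1) * ENNReal.ofReal (-Real.log (shift γ k)) := by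
        intro k
        rw [pow_succ' _ (k + 1), ← mul_assoc, ← mul_assoc, two_half, one_mul]; rfl
      simp only [e]
      rw [zero_add, pow_one, ← mul_assoc 2, two_half, one_mul]
      calc _ ≤ En (ν.map (Fm (γ 0))) + ENNReal.ofReal (-Real.log (γ 0)) := by gcongr
        _ = En ν + Em ν := h5.symm
        _ ≤ En ν + En ν := by gcongr
        _ = 2 * En ν := (two_mul _).symm
    exact (ENNReal.mul_le_mul_iff_right (by norm_num) (by norm_num)).1 h7

theorem EE_le_En {γ : ℕ → ℝ} (hγ : Adm γ) (ν : Measure ℝ) [IsProbabilityMeasure ν]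
    (hK : ∀ᵐ w ∂ν, w ∈ Kset γ) : EE γ ≤ En ν := by
  unfold EE
  rw [ENNReal.tsum_eq_iSup_nat]
  exact iSup_le fun n => partial_le n γ hγ ν inferInstance hK

theorem mu_Kset {γ : ℕ → ℝ} (hγ : Adm γ) : ∀ᵐ w ∂(mu γ), w ∈ Kset γ := by
  unfold mu
  refine (ae_map_iff (p := fun w => w ∈ Kset γ) (XX_meas hγ).aemeasurable (Kset_meas γ)).2 ?_
  refine Eventually.of_forall fun u => ?_
  intro s
  induction s generalizing γ u with
  | zero => exact XX_mem hγ u
  | succ s ih =>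
    have : itF γ (s + 1) (XX γ u) = itF (shift γ) s (XX (shift γ) (tent u)) := by
      rw [itF, XX_eq hγ u, Fm_sg_br (hγ 0).1 (hγ 0).2 (XX_mem hγ.shift _)]
    rw [this]
    exact ih hγ.shift (tent u)

theorem EE_lt_top {γ : ℕ → ℝ} (h : ∀ k : ℕ, 1 / ((k : ℝ) + 5) ≤ γ k ∧ γ k < 1 / 4) : EE γ < ⊤ := by
  unfold EE
  have h1 : ∀ k : ℕ, (1 / 2 : ENNReal) ^ (k + 1) * ENNReal.ofReal (-Real.log (γ k)) ≤
      ENNReal.ofReal (((k : ℝ) + 5) * (1 / 2) ^ k) := by
    intro k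
    have hp : (0 : ℝ) < (k : ℝ) + 5 := by positivity
    have h2 : -Real.log (γ k) ≤ (k : ℝ) + 5 := by
      have h3 : Real.log (1 / ((k : ℝ) + 5)) ≤ Real.log (γ k) :=
        Real.log_le_log (by positivity) (h k).1
      rw [one_div, Real.log_inv] at h3
      have h4 := Real.log_le_sub_one_of_pos hp
      linarith
    have h5 : (1 / 2 : ENNReal) ^ (k + 1) = ENNReal.ofReal ((1 / 2) ^ (k + 1)) := by
      rw [ENNReal.ofReal_pow (by norm_num)]
      congr 1
      rw [ENNReal.ofReal_div_of_pos (by norm_num)]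
      simp
    rw [h5, ← ENNReal.ofReal_mul (by positivity)]
    apply ENNReal.ofReal_le_ofReal
    calc (1 / 2 : ℝ) ^ (k + 1) * -Real.log (γ k) ≤ (1 / 2 : ℝ) ^ (k + 1) * ((k : ℝ) + 5) := by gcongr
      _ ≤ (1 / 2 : ℝ) ^ k * ((k : ℝ) + 5) := by
          gcongr ?_ * _
          exact pow_le_pow_of_le_one (by norm_num) (by norm_num) (Nat.le_succ k)
      _ = _ := mul_comm _ _
  refine lt_of_le_of_lt (ENNReal.tsum_le_tsum h1) ?_
  have hs : Summable (fun k : ℕ => ((k : ℝ) + 5) * (1 / 2) ^ k) := by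
    have h1 : Summable (fun k : ℕ => (k : ℝ) * (1 / 2) ^ k) := by
      have := summable_pow_mul_geometric_of_norm_lt_one 1 (r := (1 / 2 : ℝ)) (by norm_num)
      simpa using this
    have h2 : Summable (fun k : ℕ => 5 * (1 / 2 : ℝ) ^ k) :=
      (summable_geometric_of_lt_one (by norm_num) (by norm_num)).mul_left 5
    refine (h1.add h2).congr fun k => ?_
    ring
  rw [← ENNReal.ofReal_tsum_of_nonneg (fun k => by positivity) hs]
  exact ENNReal.ofReal_lt_top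

end Pool.Agent.CantorAP
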