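import Mathlib
import Pool.Agent.CantorAP.Lower

set_option autoImplicit false
open Filter Topology MeasureTheory

namespace Pool.Agent.CantorAP

noncomputable def fstep (γ : ℕ → ℝ) : ℝ → ℕ → ℝ :=
  fun (y : ℝ) (k : ℕ) => if k = 0 then 2 * y * (y - 1) / γ 0 + 1 else (y ^ 2 - 1) / (2 * γ k) + 1

theorem itF_succ' (s : ℕ) : ∀ (γ : ℕ → ℝ) (w : ℝ), itF γ (s + 1) w = Fm (γ s) (itF γ s w) := by
  induction s with
  | zero => intro γ w; rfl
  | succ s ih =>
    intro γ w
    have h1 : itF γ (s + 1 + 1) w = itF (shift γ) (s + 1) (Fm (γ 0) w) := rfl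
    have h2 : itF γ (s + 1) w = itF (shift γ) s (Fm (γ 0) w) := rfl
    rw [h1, ih, h2]; rfl

theorem foldl_eq {γ : ℕ → ℝ} (hγ : Adm γ) (x : ℝ) (s : ℕ) :
    List.foldl (fstep γ) x (List.range (s + 1)) = itF γ (s + 1) (2 * x - 1) := by
  induction s with
  | zero =>
    have := (hγ 0).1
    simp only [zero_add, List.range_one, List.foldl_cons, List.foldl_nil, fstep, if_true]
    rw [itF_succ']
    simp only [itF, Fm]
    field_simp
    ring
  | succ s ih =>
    have := (hγ (s + 1)).1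
    rw [List.range_succ, List.foldl_append, ih, itF_succ' (s + 1)]
    simp only [List.foldl_cons, List.foldl_nil, fstep]
    rw [if_neg (Nat.succ_ne_zero s)]
    unfold Fm
    field_simp
    ring

noncomputable def Bad (γ : ℕ → ℝ) : Set ℝ :=
  {x : ℝ | ∃ s : ℕ, 1 < |List.foldl (fstep γ) x (List.range s)|}

theorem Bad_iff {γ : ℕ → ℝ} (hγ : Adm γ) (x : ℝ) : x ∉ Bad γ ↔ 2 * x - 1 ∈ Kset γ := by
  unfold Bad
  simp only [Set.mem_ofPred_eq, not_exists, not_lt]
  constructor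
  · intro h s
    rw [Set.mem_Icc, ← abs_le]
    cases s with
    | zero =>
      have h1 := h 1
      rw [show (1 : ℕ) = 0 + 1 by rfl, foldl_eq hγ, itF_succ', abs_le] at h1
      simp only [itF, Fm] at h1 ⊢
      have hg := (hγ 0).1
      have h2 := h1.2
      rw [div_le_iff₀ (by linarith)] at h2
      rw [← sq_le_one_iff_abs_le_one]
      linarith
    | succ s =>
      have := h (s + 1)
      rwa [foldl_eq hγ] at this
  · intro h s
    cases s with
    | zero =>
      have h1 := h 0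
      simp only [itF, Set.mem_Icc] at h1
      simp only [List.range_zero, List.foldl_nil]
      rw [abs_le]; constructor <;> linarith [h1.1, h1.2]
    | succ s =>
      rw [foldl_eq hγ, abs_le]
      exact h (s + 1)

theorem Bad_ae {γ : ℕ → ℝ} (hγ : Adm γ) (ν : Measure ℝ) [IsProbabilityMeasure ν] :
    ν (Bad γ) = 0 ↔ ∀ᵐ w ∂(ν.map fun z => 2 * z - 1), w ∈ Kset γ := by
  rw [ae_map_iff (p := fun w => w ∈ Kset γ) (by fun_prop) (Kset_meas γ)]
  rw [← compl_compl (Bad γ), ← mem_ae_iff (s := (Bad γ)ᶜ)]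
  constructor
  · intro h
    filter_upwards [h] with x hx
    exact (Bad_iff hγ x).1 hx
  · intro h
    filter_upwards [h] with x hx
    exact (Bad_iff hγ x).2 hx

theorem kern_eq (x y : ℝ) : (if x = y then (⊤ : ENNReal) else ENNReal.ofReal (-Real.log |x - y|)) =
    kap (2 * x - 1) (2 * y - 1) := by
  unfold kap Lf
  rw [show (2 * x - 1 - (2 * y - 1)) / 2 = x - y by ring]
  simp only [sub_eq_zero]

theorem energy_eq (ν : Measure ℝ) [IsProbabilityMeasure ν] :
    (∫⁻ x, ∫⁻ y, (if x = y then (⊤ : ENNReal) else ENNReal.ofReal (-Real.log |x - y|)) ∂ν ∂ν) =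
      En (ν.map fun z => 2 * z - 1) := by
  rw [En_map (by fun_prop)]
  simp only [kern_eq]

noncomputable def muz (γ : ℕ → ℝ) : Measure ℝ := (mu γ).map (fun w => (1 + w) / 2)

theorem muz_prob {γ : ℕ → ℝ} (hγ : Adm γ) : IsProbabilityMeasure (muz γ) := by
  have := famMu.prob γ hγ
  exact Measure.isProbabilityMeasure_map (by fun_prop)

theorem muz_map (γ : ℕ → ℝ) : (muz γ).map (fun z => 2 * z - 1) = mu γ := by
  unfold muz
  rw [Measure.map_map (by fun_prop) (by fun_prop)]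
  have : ((fun z : ℝ => 2 * z - 1) ∘ fun w => (1 + w) / 2) = id := by
    funext w; simp only [Function.comp, id]; ring
  rw [this, Measure.map_id]

open Polynomial in
noncomputable def pz (γ : ℕ → ℝ) (n : ℕ) : ℝ[X] :=
  C (1 / Real.sqrt (J mu γ n n)) * (P γ n).comp (C 2 * X - C 1)

theorem pz_eval (γ : ℕ → ℝ) (n : ℕ) (w : ℝ) :
    (pz γ n).eval ((1 + w) / 2) = 1 / Real.sqrt (J mu γ n n) * (P γ n).eval w := by
  unfold pz
  simp only [Polynomial.eval_mul, Polynomial.eval_C, Polynomial.eval_comp, Polynomial.eval_sub,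
    Polynomial.eval_X]
  congr 2; ring

theorem pz_deg {γ : ℕ → ℝ} (hγ : Adm γ) (n : ℕ) :
    (pz γ n).natDegree = n ∧ 0 < (pz γ n).leadingCoeff := by
  have hh := famMu.norm_pos hγ n
  have hc : (1 / Real.sqrt (J mu γ n n)) ≠ 0 := by positivity
  have hq : (Polynomial.C (2 : ℝ) * Polynomial.X - Polynomial.C 1).natDegree = 1 := by
    rw [Polynomial.natDegree_sub_C, Polynomial.natDegree_C_mul_X _ (by norm_num)]
  have hql : (Polynomial.C (2 : ℝ) * Polynomial.X - Polynomial.C 1).leadingCoeff = 2 := by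
    rw [Polynomial.leadingCoeff, hq]
    simp [Polynomial.coeff_one]
  obtain ⟨h1, h2⟩ := P_deg γ n
  unfold pz
  refine ⟨?_, ?_⟩
  · rw [Polynomial.natDegree_C_mul hc, Polynomial.natDegree_comp, h1, hq, mul_one]
  · rw [Polynomial.leadingCoeff_mul, Polynomial.leadingCoeff_C,
      Polynomial.leadingCoeff_comp (by rw [hq]; norm_num), hql, h2.leadingCoeff]
    positivity

theorem pz_orth {γ : ℕ → ℝ} (hγ : Adm γ) (m n : ℕ) :
    ∫ x, (pz γ m).eval x * (pz γ n).eval x ∂(muz γ) = if m = n then 1 else 0 := by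
  unfold muz
  rw [integral_map (by fun_prop) (Continuous.aestronglyMeasurable (by fun_prop))]
  simp only [pz_eval]
  have e : ∀ w : ℝ, (1 / Real.sqrt (J mu γ m m) * (P γ m).eval w) *
      (1 / Real.sqrt (J mu γ n n) * (P γ n).eval w) =
      (1 / Real.sqrt (J mu γ m m) * (1 / Real.sqrt (J mu γ n n))) *
        ((P γ m).eval w * (P γ n).eval w) := fun w => by ring
  simp only [e]
  rw [integral_const_mul]
  change _ * J mu γ m n = _
  split_ifs with h
  · subst h
    have hh := famMu.norm_pos hγ m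
    have := Real.mul_self_sqrt hh.le
    have hs : Real.sqrt (J mu γ m m) ≠ 0 := by positivity
    field_simp
    rw [sq]; exact this.symm
  · rw [famMu.orth' hγ h, mul_zero]

theorem pz_coef {γ : ℕ → ℝ} (hγ : Adm γ) (n : ℕ) :
    ∫ x, x * (pz γ n).eval x * (pz γ (n + 1)).eval x ∂(muz γ) = Real.sqrt (A γ (n + 1)) / 2 := by
  unfold muz
  rw [integral_map (by fun_prop) (Continuous.aestronglyMeasurable (by fun_prop))]
  simp only [pz_eval]
  have e : ∀ w : ℝ, (1 + w) / 2 * (1 / Real.sqrt (J mu γ n n) * (P γ n).eval w) *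
      (1 / Real.sqrt (J mu γ (n + 1) (n + 1)) * (P γ (n + 1)).eval w) =
      (1 / Real.sqrt (J mu γ n n) * (1 / Real.sqrt (J mu γ (n + 1) (n + 1))) / 2) *
        ((P γ n).eval w * (P γ (n + 1)).eval w + w * (P γ n).eval w * (P γ (n + 1)).eval w) :=
    fun w => by ring
  simp only [e]
  rw [integral_const_mul, integral_add (famMu.integrable hγ (by fun_prop))
    (famMu.integrable hγ (by fun_prop)), famMu.J_xx hγ]
  have h0 : (∫ w, (P γ n).eval w * (P γ (n + 1)).eval w ∂(mu γ)) = 0 :=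
    famMu.orth' hγ (by omega : n ≠ n + 1)
  rw [h0, zero_add, famMu.norm_succ hγ]
  have hh := famMu.norm_pos hγ n
  have hA := A_pos n γ hγ
  rw [Real.sqrt_mul hA.le]
  have s1 := Real.mul_self_sqrt hh.le
  have s2 := Real.mul_self_sqrt hA.le
  have p1 : 0 < Real.sqrt (J mu γ n n) := Real.sqrt_pos.2 hh
  have p2 : 0 < Real.sqrt (A γ (n + 1)) := Real.sqrt_pos.2 hA
  set a := Real.sqrt (J mu γ n n)
  set b := Real.sqrt (A γ (n + 1))
  rw [← s1, ← s2]
  field_simp

/-- the dynamics contradicts asymptotic almost periodicity -/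
theorem not_ap {γ : ℕ → ℝ} (hγ : Adm γ) {c0 : ℝ} (hc0 : 0 < c0)
    (hdyn : ∀ η : ℝ, 0 < η → ∀ L N : ℕ, ∃ i w D : ℕ, N ≤ i ∧ N ≤ w ∧
      c0 < |rho (shift γ) i (fst (γ 0)) - rho (shift γ) (i + D) (fst (γ 0))| ∧
      ∀ t < L, |rho (shift γ) (w + t) (fst (γ 0)) - rho (shift γ) (w + t + D) (fst (γ 0))| < η)
    (c : ℤ → ℝ)
    (hc : ∀ ε : ℝ, 0 < ε → ∃ L : ℕ, ∀ m : ℤ, ∃ τ : ℤ, m ≤ τ ∧ τ ≤ m + L ∧ ∀ n : ℤ, |c (n + τ) - c n| < ε)
    (ht : Tendsto (fun n : ℕ => Real.sqrt (A γ (n + 1)) / 2 - c n) atTop (𝓝 0)) : False := by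
  set ε := c0 / 64 with hε
  have hε0 : 0 < ε := by positivity
  obtain ⟨L, hL⟩ := hc ε hε0
  obtain ⟨N, hN⟩ : ∃ N : ℕ, ∀ n ≥ N, |Real.sqrt (A γ (n + 1)) / 2 - c n| < ε := by
    have := (Metric.tendsto_atTop.1 ht) ε hε0
    obtain ⟨N, hN⟩ := this
    refine ⟨N, fun n hn => ?_⟩
    have := hN n hn
    rwa [Real.dist_eq, sub_zero] at this
  obtain ⟨i, w, D, hi, hw, h1, h2⟩ := hdyn (ε ^ 2) (by positivity) (L + 2) (N + 1)
  set b : ℕ → ℝ := fun n => Real.sqrt (A γ (n + 1)) / 2 with hb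
  have hp0 : 1 / 2 < 1 - 2 * γ 0 := by linarith [(hγ 0).2]
  have hp1 : 1 - 2 * γ 0 < 1 := by linarith [(hγ 0).1]
  have hbN : ∀ n ≥ N, |b n - c n| < ε := hN
  -- lower bound
  have hlow : c0 / 8 ≤ |b (2 * i) - b (2 * i + 2 * D)| := by
    have e1 : A γ (2 * i + 1) = (1 - 2 * γ 0) * rho (shift γ) i (fst (γ 0)) := A_odd γ i
    have e2 : A γ (2 * i + 2 * D + 1) = (1 - 2 * γ 0) * rho (shift γ) (i + D) (fst (γ 0)) := by
      rw [show 2 * i + 2 * D + 1 = 2 * (i + D) + 1 by ring]; exact A_odd γ (i + D)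
    have a1 := A_le_one hγ (2 * i + 1)
    have a2 := A_le_one hγ (2 * i + 2 * D + 1)
    have s1 := Real.mul_self_sqrt a1.1
    have s2 := Real.mul_self_sqrt a2.1
    have u1 : Real.sqrt (A γ (2 * i + 1)) ≤ 1 := by
      rw [Real.sqrt_le_left (by norm_num)]; linarith [a1.2]
    have u2 : Real.sqrt (A γ (2 * i + 2 * D + 1)) ≤ 1 := by
      rw [Real.sqrt_le_left (by norm_num)]; linarith [a2.2]
    have v1 := Real.sqrt_nonneg (A γ (2 * i + 1))
    have v2 := Real.sqrt_nonneg (A γ (2 * i + 2 * D + 1))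
    have hd : c0 / 2 ≤ |A γ (2 * i + 1) - A γ (2 * i + 2 * D + 1)| := by
      rw [e1, e2, ← mul_sub, abs_mul, abs_of_pos (by linarith)]
      nlinarith [abs_nonneg (rho (shift γ) i (fst (γ 0)) - rho (shift γ) (i + D) (fst (γ 0)))]
    have hfac : |A γ (2 * i + 1) - A γ (2 * i + 2 * D + 1)| =
        |Real.sqrt (A γ (2 * i + 1)) - Real.sqrt (A γ (2 * i + 2 * D + 1))| *
        (Real.sqrt (A γ (2 * i + 1)) + Real.sqrt (A γ (2 * i + 2 * D + 1))) := by
      rw [← abs_of_nonneg (add_nonneg v1 v2), ← abs_mul]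
      congr 1
      linear_combination s2 - s1
    have hbb : |b (2 * i) - b (2 * i + 2 * D)| =
        |Real.sqrt (A γ (2 * i + 1)) - Real.sqrt (A γ (2 * i + 2 * D + 1))| / 2 := by
      simp only [hb]
      rw [← sub_div, abs_div]; norm_num
    rw [hbb]
    have := abs_nonneg (Real.sqrt (A γ (2 * i + 1)) - Real.sqrt (A γ (2 * i + 2 * D + 1)))
    nlinarith
  -- window
  have hwin : ∀ q : ℕ, 2 * w ≤ q → q ≤ 2 * w + L → |b q - b (q + 2 * D)| ≤ ε := by
    intro q hq1 hq2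
    have hA : |A γ (q + 1) - A γ (q + 2 * D + 1)| ≤ ε ^ 2 := by
      rcases Nat.even_or_odd' q with ⟨r, rfl | rfl⟩
      · have hr := h2 (r - w) (by omega)
        rw [show w + (r - w) = r by omega] at hr
        rw [A_odd, show 2 * r + 2 * D + 1 = 2 * (r + D) + 1 by ring, A_odd, ← mul_sub, abs_mul,
          abs_of_pos (by linarith)]
        nlinarith [abs_nonneg (rho (shift γ) r (fst (γ 0)) - rho (shift γ) (r + D) (fst (γ 0)))]
      · have hr := h2 (r + 1 - w) (by omega)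
        rw [show w + (r + 1 - w) = r + 1 by omega] at hr
        rw [show 2 * r + 1 + 1 = 2 * (r + 1) by ring, A_even,
          show 2 * r + 1 + 2 * D + 1 = 2 * (r + 1 + D) by ring, A_even, ← mul_sub, abs_mul,
          abs_of_pos (by linarith), show (1 - rho (shift γ) (r + 1) (fst (γ 0)) -
            (1 - rho (shift γ) (r + 1 + D) (fst (γ 0)))) =
            -(rho (shift γ) (r + 1) (fst (γ 0)) - rho (shift γ) (r + 1 + D) (fst (γ 0))) by ring,
          abs_neg]
        nlinarith [abs_nonneg (rho (shift γ) (r + 1) (fst (γ 0)) - rho (shift γ) (r + 1 + D) (fst (γ 0)))]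
    have a1 := A_le_one hγ (q + 1)
    have a2 := A_le_one hγ (q + 2 * D + 1)
    have hs : |Real.sqrt (A γ (q + 1)) - Real.sqrt (A γ (q + 2 * D + 1))| ≤ ε := by
      apply le_of_sq_le_sq _ hε0.le |> fun h => h
      have s1 := Real.mul_self_sqrt a1.1
      have s2 := Real.mul_self_sqrt a2.1
      have v1 := Real.sqrt_nonneg (A γ (q + 1))
      have v2 := Real.sqrt_nonneg (A γ (q + 2 * D + 1))
      rw [sq_abs]
      refine le_trans ?_ hA
      rcases le_total (Real.sqrt (A γ (q + 1))) (Real.sqrt (A γ (q + 2 * D + 1))) with h | h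
      · rw [abs_sub_comm]
        refine le_trans ?_ (le_abs_self _)
        nlinarith
      · refine le_trans ?_ (le_abs_self _)
        nlinarith
    simp only [hb]
    rw [← sub_div, abs_div]
    have : |(2 : ℝ)| = 2 := by norm_num
    rw [this]
    linarith
  -- use the almost period
  obtain ⟨τ, ht1, ht2, ht3⟩ := hL (2 * (w : ℤ) - 2 * i)
  obtain ⟨q, hq⟩ : ∃ q : ℕ, (q : ℤ) = 2 * i + τ := ⟨(2 * (i : ℤ) + τ).toNat, by
    rw [Int.toNat_of_nonneg]; linarith [Int.natCast_nonneg w]⟩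
  have hq1 : 2 * w ≤ q := by
    have : (2 * w : ℤ) ≤ q := by rw [hq]; linarith
    exact_mod_cast this
  have hq2 : q ≤ 2 * w + L := by
    have : (q : ℤ) ≤ 2 * w + L := by rw [hq]; linarith
    exact_mod_cast this
  have k1 := ht3 (2 * i : ℤ)
  have k2 := ht3 (2 * i + 2 * D : ℤ)
  rw [← hq] at k1
  rw [show (2 * (i : ℤ) + 2 * D + τ) = q + 2 * D by rw [hq]; ring] at k2
  have k3 := hwin q hq1 hq2
  have n1 := hbN (2 * i) (by omega)
  have n2 := hbN (2 * i + 2 * D) (by omega)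
  have n3 := hbN q (by omega)
  have n4 := hbN (q + 2 * D) (by omega)
  push_cast at n1 n2 n3 n4
  rw [abs_lt] at k1 k2 n1 n2 n3 n4
  rw [abs_le] at k3
  have : |b (2 * i) - b (2 * i + 2 * D)| ≤ 7 * ε := by
    rw [abs_le]; constructor <;> linarith [k1.1, k1.2, k2.1, k2.2, n1.1, n1.2, n2.1, n2.2, n3.1, n3.2, n4.1, n4.2, k3.1, k3.2]
  linarith

end Pool.Agent.CantorAP
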